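import Pool.Agent.Work.MP_13b5d9_gt.ST.Stmts

set_option autoImplicit false
set_option maxSynthPendingDepth 3

/-!
# Block ST, item Act (helper57): the action along a linearised solution
-/

open MeasureTheory Set Filter Topology
open scoped ContDiff ENNReal
open Pool.Agent.Work.MP_c9f990_an.Al (IsFlow)

namespace Pool.Agent.STR

open Pool.Agent.MLS

namespace IAct

variable {n : ℕ} {g : Form n}

/-- the differential of the energy -/
theorem dH (h1 : StOp) (hg : Riem g) (y δ : W n) :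
    fderiv ℝ (Hm g) y δ = inner ℝ (XH (Hm g) y).1 δ.2 - inner ℝ (XH (Hm g) y).2 δ.1 := by
  obtain ⟨hsh, -⟩ := h1 n g hg
  have e1 : (δ : W n) = (δ.1, 0) + (0, δ.2) := by
    ext1 <;> simp
  have e2 : inner ℝ (XH (Hm g) y).1 δ.2 = fderiv ℝ (Hm g) y (0, δ.2) := by
    unfold XH
    rw [hsh]
    rfl
  have e3 : inner ℝ (XH (Hm g) y).2 δ.1 = -fderiv ℝ (Hm g) y (δ.1, 0) := by
    unfold XH
    rw [inner_neg_left, hsh]
    rfl
  rw [e2, e3]
  conv_lhs => rw [e1, map_add]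
  ring

/-- the first component of the linearised field -/
theorem fstX (h2 : StHd) (h3 : StTr0) (hH : ContDiff ℝ ∞ (Hm g)) (hg : Riem g) (y : W n) :
    HasFDerivAt (vel g) ((ContinuousLinearMap.fst ℝ (E n) (E n)).comp (fderiv ℝ (XH (Hm g)) y)) y := by
  have hX : ContDiff ℝ ∞ (XH (Hm g)) := (h3 n (Hm g) hH).1
  have hXd : HasFDerivAt (XH (Hm g)) (fderiv ℝ (XH (Hm g)) y) y :=
    (hX.differentiable (by norm_num) y).hasFDerivAt
  have e : vel g = fun z => (XH (Hm g) z).1 := funext fun z => ((h2 n g hg z).1).symm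
  rw [e]
  exact hXd.fst

theorem der (h1 : StOp) (h2 : StHd) (h3 : StTr0) (hg : Riem g) (y δ : W n) :
    inner ℝ (XH (Hm g) y).2 δ.1 + inner ℝ y.2 (fderiv ℝ (XH (Hm g)) y δ).1 = fderiv ℝ (Hm g) y δ := by
  obtain ⟨hsh, hop, hio, hoi, hsym, ho1, ho2, hH, hHm⟩ := h1 n g hg
  have hv := fstX h2 h3 hH hg y
  have hHd : HasFDerivAt (Hm g) (fderiv ℝ (Hm g) y) y := (hH.differentiable (by norm_num) y).hasFDerivAt
  have h2' : HasFDerivAt (fun z : W n => z.2) (ContinuousLinearMap.snd ℝ (E n) (E n)) y := hasFDerivAt_snd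
  have h4 := h2'.inner ℝ hv
  have e : (fun z : W n => inner ℝ z.2 (vel g z)) = fun z => 2 * Hm g z := by
    funext z
    rw [hHm]
    have h5 := hop z.1 (vel g z) (vel g z)
    have h6 : op g z.1 (vel g z) = z.2 := hoi z.1 z.2
    rw [h6] at h5
    rw [h5]
    ring
  rw [e] at h4
  have h5 := h4.unique (hHd.const_mul 2)
  have h6 := congrArg (fun l : W n →L[ℝ] ℝ => l δ) h5
  simp only [_root_.smul_apply, smul_eq_mul] at h6
  have h7 : inner ℝ y.2 (fderiv ℝ (XH (Hm g)) y δ).1 + inner ℝ δ.2 (vel g y) = 2 * fderiv ℝ (Hm g) y δ := h6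
  have h8 := dH h1 hg y δ
  rw [(h2 n g hg y).1, real_inner_comm] at h8
  linarith

end IAct

open IAct in
theorem pr_Act (h1 : StOp) (h2 : StHd) (h3 : StTr0) (h4 : StGeo1) : StAct := by
  intro n g φ M hg hf z0 δ0 t0
  obtain ⟨hsh, hop, hio, hoi, hsym, ho1, ho2, hH, hHm⟩ := h1 n g hg
  -- conservation of energy
  have hcons : ∀ t y, Hm g (φ t y) = Hm g y := by
    intro t y
    have h6 := (h4 n g hg (fun s => φ s y) (fun s => hf.ode y s)).2.2 t
    rw [h6]
    show Hm g (φ 0 y) = _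
    rw [hf.zero]
  have hHd : ∀ y, HasFDerivAt (Hm g) (fderiv ℝ (Hm g) y) y :=
    fun y => (hH.differentiable (by norm_num) y).hasFDerivAt
  have hconst : ∀ t, fderiv ℝ (Hm g) (φ t z0) (M t z0 δ0) = fderiv ℝ (Hm g) z0 δ0 := by
    intro t
    have h6 : HasFDerivAt (fun y => Hm g (φ t y)) ((fderiv ℝ (Hm g) (φ t z0)).comp (M t z0)) z0 :=
      (hHd (φ t z0)).comp z0 (hf.diff t z0)
    have h7 : (fun y => Hm g (φ t y)) = Hm g := funext (hcons t)
    rw [h7] at h6
    exact congrArg (fun l : W n →L[ℝ] ℝ => l δ0) (h6.unique (hHd z0))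
  -- the function
  have hder : ∀ t, HasDerivAt (fun t => inner ℝ (φ t z0).2 (M t z0 δ0).1)
      (fderiv ℝ (Hm g) z0 δ0) t := by
    intro t
    have h6 : HasDerivAt (fun s => (φ s z0).2) (XH (Hm g) (φ t z0)).2 t := (hf.ode z0 t).snd
    have h7 : HasDerivAt (fun s => M s z0 δ0) (fderiv ℝ (XH (Hm g)) (φ t z0) (M t z0 δ0)) t := by
      have h8 := (hf.Mode z0 t).clm_apply (hasDerivAt_const t δ0)
      simpa using h8
    have h8 := h6.inner ℝ h7.fst
    have h9 := der h1 h2 h3 hg (φ t z0) (M t z0 δ0)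
    rw [hconst] at h9
    refine h8.congr_deriv ?_
    rw [← h9]
    ring
  have hlin : ∀ t, inner ℝ (φ t z0).2 (M t z0 δ0).1 - t * fderiv ℝ (Hm g) z0 δ0 =
      inner ℝ (φ 0 z0).2 (M 0 z0 δ0).1 - 0 * fderiv ℝ (Hm g) z0 δ0 := by
    intro t
    have hd : ∀ t, HasDerivAt (fun t => inner ℝ (φ t z0).2 (M t z0 δ0).1 -
        t * fderiv ℝ (Hm g) z0 δ0) 0 t := by
      intro t
      have h6 := (hder t).sub ((hasDerivAt_id t).mul_const (fderiv ℝ (Hm g) z0 δ0))
      refine h6.congr_deriv ?_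
      ring
    exact is_const_of_deriv_eq_zero (fun t => (hd t).differentiableAt) (fun t => (hd t).deriv) t 0
  have h6 := hlin t0
  rw [hf.M0, hf.zero] at h6
  have h7 : inner ℝ z0.2 ((ContinuousLinearMap.id ℝ (W n)) δ0).1 = inner ℝ z0.2 δ0.1 := rfl
  rw [h7] at h6
  linarith

end Pool.Agent.STR
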