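import Pool.Agent.Work.MP_13b5d9_gt.ST.Stmts

set_option autoImplicit false
set_option maxSynthPendingDepth 3

/-!
# MP_13b5d9_gt, block ST: assembly
-/

open MeasureTheory Set Filter Topology
open scoped ContDiff ENNReal

namespace Pool.Agent.STR

open Pool.Agent.MLS

namespace IAx

theorem segment_compact {n : ℕ} (x y : E n) : IsCompact (segment ℝ x y) := by
  rw [segment_eq_image_lineMap]
  exact isCompact_Icc.image AffineMap.lineMap_continuous

theorem smooth_form {n : ℕ} (g : Form n) (V : E n → E n) (hV : ContDiff ℝ ∞ V) :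
    ContDiff ℝ ∞ (fun p => g.val p (V p)) :=
  g.smooth.clm_apply hV

end IAx

/-- every metric without conjugate points has the canonical field of every central element -/
theorem pr_Ax (h : StFlow) (h1 : StLog) (h2 : StCst) (h3 : StFld) (h4 : StThe) (h5 : StBd)
    (h6 : StClimb) (h7 : StTri) (h8 : StPotG) (h9 : StAxF) : StAx := by
  intro n G _ _ hG g hg hi hN z hz hc
  obtain ⟨φ, M, hφ⟩ := h n G hG g hg hi
  obtain ⟨lg, hlg⟩ := h1 n g φ M hg hφ hN
  obtain ⟨l, hl, hd, hev⟩ := h2 n G hG g hg hi φ M hφ lg hlg z hz hc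
  obtain ⟨V, ψ, hF⟩ := h3 n G hG g hg hi φ M hφ lg hlg z hc l hl hd hev
  have hth := h4 n G g φ M z l V ψ hg hφ hF
  have hcl := h7 n G g φ z l V ψ hF (fun x y => h6 n G g φ z l V ψ hg hF hth x y
    (h5 n G hG g φ z l V ψ hg hi hF _ (IAx.segment_compact x y)))
  obtain ⟨τ, hτ, hτ'⟩ := h8 n _ (IAx.smooth_form g V hF.smoothV) hcl
  exact ⟨l, V, τ, ψ, h9 n G hG g φ z l V ψ hi hF τ hτ hτ'⟩

end Pool.Agent.STR
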