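import Pool.Agent.Work.MP_25cd3b_gt.NC.Defs

set_option autoImplicit false

/-!
# MP_13b5d9_gt, block ST (structure of all metrics without conjugate points on manifolds with a
central element of the fundamental group): definitions

The closed manifold is `R^n / G` as in MP_25cd3b_gt/M/Defs.  For a product `M x S^1` with the
universal covering `R^m x R` the group is `π_1 M x Z`, and the generator `z` of `Z` is central.
-/

open MeasureTheory Set Filter Topology
open scoped ContDiff ENNReal
open Pool.Agent.Work.MP_c9f990_an.Al (IsFlow)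

namespace Pool.Agent.STR

open Pool.Agent.MLS

/-- The canonical field of a central element `z`: a `G`-invariant unit vector field `V` of `R^n`
whose integral curves `t ↦ ψ t x` are geodesics with `ψ l x = z x`, and a function `τ` with gradient
`V` which increases with speed one along the integral curves and changes by a constant under every
element of the group.  (So on the quotient all integral curves of `V` are closed geodesics of length
`l`, or of length `l` divided by an integer, and the metric is `dτ^2 + g_τ` on the levels of `τ`.) -/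
structure Axis (n : ℕ) (G : Type) [Group G] [MulAction G (E n)] (g : Form n) (z : G) (l : ℝ)
    (V : E n → E n) (τ : E n → ℝ) (ψ : ℝ → E n → E n) : Prop where
  pos : 0 < l
  smoothV : ContDiff ℝ ∞ V
  smoothT : ContDiff ℝ ∞ τ
  smoothF : ContDiff ℝ ∞ (fun p : ℝ × E n => ψ p.1 p.2)
  unit : ∀ x, g.val x (V x) (V x) = 1
  grad : ∀ x v, fderiv ℝ τ x v = g.val x (V x) v
  inv : ∀ (a : G) (x : E n), V (a • x) = dac a x (V x)
  zero : ∀ x, ψ 0 x = x
  ode : ∀ x t, HasDerivAt (fun s => ψ s x) (V (ψ t x)) t
  add : ∀ s t x, ψ (s + t) x = ψ s (ψ t x)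
  geo : ∀ x, IsGeo g (fun t => ψ t x)
  period : ∀ x, ψ l x = z • x
  comm : ∀ (a : G) (t : ℝ) (x : E n), ψ t (a • x) = a • ψ t x
  height : ∀ t x, τ (ψ t x) = τ x + t
  deck : ∀ a : G, ∃ h : ℝ, ∀ x, τ (a • x) = τ x + h

/-- Lie derivative of the field `b` of bilinear forms with respect to the vector field `V`:
`(D b (V)) (u, v) + b (DV u, v) + b (u, DV v)` -/
noncomputable def Lie {n : ℕ} (V : E n → E n) (b : E n → E n →L[ℝ] E n →L[ℝ] ℝ) (x : E n) :
    E n →L[ℝ] E n →L[ℝ] ℝ :=
  fderiv ℝ b x (V x) + (b x).comp (fderiv ℝ V x) +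
    ((ContinuousLinearMap.compL ℝ (E n) (E n) ℝ).flip (fderiv ℝ V x)).comp (b x)

/-- matrix of a field of bilinear forms -/
noncomputable def bm {n : ℕ} (b : E n → E n →L[ℝ] E n →L[ℝ] ℝ) (x : E n) :
    Matrix (Fin n) (Fin n) ℝ :=
  Matrix.of fun i j => b x (ee i) (ee j)

/-- divergence of `V`: trace (with respect to `g`) of `S = (L_V g) / 2`, which is the covariant
derivative `∇V` if the form `g (V, .)` is closed -/
noncomputable def dvg {n : ℕ} (g : Form n) (V : E n → E n) (x : E n) : ℝ :=
  1 / 2 * ((gm g x)⁻¹ * bm (Lie V g.val) x).trace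

/-- square of the norm of `S = (L_V g) / 2` -/
noncomputable def shr {n : ℕ} (g : Form n) (V : E n → E n) (x : E n) : ℝ :=
  1 / 4 * (((gm g x)⁻¹ * bm (Lie V g.val) x) * ((gm g x)⁻¹ * bm (Lie V g.val) x)).trace

/-! ### auxiliary definitions of the proof -/

/-- `lg x y` is the inverse image of `y` under the exponential map at `x`, and its length is the
distance -/
structure IsLog {n : ℕ} (g : Form n) (φ : ℝ → W n → W n) (lg : E n → E n → E n) : Prop where
  smooth : ContDiff ℝ ∞ (fun p : E n × E n => lg p.1 p.2)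
  exp_log : ∀ x y, expo φ g x (lg x y) = y
  log_exp : ∀ x v, lg x (expo φ g x v) = v
  dist : ∀ x y, gd g x y = nrm g x (lg x y)

/-- velocity at time `1` of the geodesic with initial velocity `v` at `x` -/
noncomputable def ev {n : ℕ} (φ : ℝ → W n → W n) (g : Form n) (x v : E n) : E n :=
  vel g (φ 1 (x, op g x v))

/-- the data of `Axis` without the potential, and their relation to the geodesic flow `φ` -/
structure Fld (n : ℕ) (G : Type) [Group G] [MulAction G (E n)] (g : Form n) (φ : ℝ → W n → W n)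
    (z : G) (l : ℝ) (V : E n → E n) (ψ : ℝ → E n → E n) : Prop where
  pos : 0 < l
  smoothV : ContDiff ℝ ∞ V
  smoothF : ContDiff ℝ ∞ (fun p : ℝ × E n => ψ p.1 p.2)
  unit : ∀ x, g.val x (V x) (V x) = 1
  inv : ∀ (a : G) (x : E n), V (a • x) = dac a x (V x)
  zero : ∀ x, ψ 0 x = x
  ode : ∀ x t, HasDerivAt (fun s => ψ s x) (V (ψ t x)) t
  add : ∀ s t x, ψ (s + t) x = ψ s (ψ t x)
  geo : ∀ x, IsGeo g (fun t => ψ t x)
  period : ∀ x, ψ l x = z • x
  comm : ∀ (a : G) (t : ℝ) (x : E n), ψ t (a • x) = a • ψ t x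
  phase : ∀ (t : ℝ) (x : E n), φ t (x, op g x (V x)) = (ψ t x, op g (ψ t x) (V (ψ t x)))
  dist : ∀ (t : ℝ) (x : E n), gd g x (ψ t x) = |t|

/-- integral of the one form `α` over the segment from `x` to `y` -/
noncomputable def seg {n : ℕ} (α : E n → E n →L[ℝ] ℝ) (x y : E n) : ℝ :=
  ∫ s in (0 : ℝ)..1, α (x + s • (y - x)) (y - x)

end Pool.Agent.STR
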