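import Pool.Agent.Work.MP_25cd3b_gt.NC.Stmts
import Pool.Agent.Work.MP_13b5d9_gt.ST.Defs

set_option autoImplicit false

/-!
# MP_13b5d9_gt, block ST: statements of the items, each with its complete proof

`StX` in the comments without further mark are the statements of MP_25cd3b_gt/M/Stmts, `NcX` those of
MP_25cd3b_gt/NC/Stmts.  Notation: `v = vel g z`, `X = XH (Hm g)`, `H = Hm g`, `ex_x = expo φ g x`.
Provers may use every earlier statement (also of M and NC) as a hypothesis `(h : StX)`.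
-/

open MeasureTheory Set Filter Topology
open scoped ContDiff ENNReal
open Pool.Agent.Work.MP_c9f990_an.Al (IsFlow)

namespace Pool.Agent.STR

open Pool.Agent.MLS

/-! ### A. exponential map and logarithm -/

/-- Joint smoothness.  The first part is `StSmF` (file I_SmF, proved there from `StPatch`) with
`Q = W n`; `XH (Hm g)` is smooth by `StOp`, `StTr0`.  The second part: `expo φ g p v =
(φ 1 (p, op g p v)).1`, `op g` is smooth (`StOp`). -/
def StExS : Prop := ∀ (n : ℕ) (g : Form n) (φ : ℝ → W n → W n) (M : ℝ → W n → W n →L[ℝ] W n),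
  Riem g → IsFlow (XH (Hm g)) φ M → ContDiff ℝ ∞ (fun p : ℝ × W n => φ p.1 p.2) ∧
  ContDiff ℝ ∞ (fun p : E n × E n => expo φ g p.1 p.2)

/-- The logarithm.  `F (x, v) = (x, ex_x v)` is smooth (`StExS`) and bijective (`NcDist`, whose
hypothesis is `NcInj`).  Its derivative at `(x, v)` is `(u, w) ↦ (u, A u + B w)` with
`B = fderiv ℝ (expo φ g x) v` injective (`NcInj`), so it is injective, hence an equivalence (finite
dimension).  So `F` is a local homeomorphism, hence open, hence a homeomorphism, and its inverse is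
smooth (`Homeomorph.contDiff_symm` or `OpenPartialHomeomorph.contDiffAt_symm` /
`ContDiffAt.to_localInverse`).  `lg x y` is the second component of `F⁻¹ (x, y)`; the distance is
`NcDist`. -/
def StLog : Prop := ∀ (n : ℕ) (g : Form n) (φ : ℝ → W n → W n) (M : ℝ → W n → W n →L[ℝ] W n),
  Riem g → IsFlow (XH (Hm g)) φ M → NoConj g → ∃ lg : E n → E n → E n, IsLog g φ lg

/-- Action.  `z_t = φ t z`, `δ_t = M t z δ`, `f t = inner (z_t.2) (δ_t.1)`.
`f' = inner (X z_t).2 δ_t.1 + inner z_t.2 (DX(z_t) δ_t).1` (`IsFlow.ode`, `IsFlow.Mode`).  Since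
`(X y).1 = vel g y` (`StHd`), `(DX(y) δ).1 = Dvel(y) δ`.  Differentiate `inner y.2 (vel g y) = 2 H y`
(definition of `Hm`) in the direction `δ`: `inner δ.2 (vel y) + inner y.2 (Dvel(y) δ) = 2 DH(y) δ`.
By definition of `XH` and `StOp` (`inner (sh l) w = l w`): `DH(y) δ = inner (X y).1 δ.2 -
inner (X y).2 δ.1`.  So `f' = DH(z_t) δ_t`.  As `H (φ t y) = H y` (`StGeo1`), `DH(z_t) δ_t = DH(z) δ`.
(The same computation is in `NcGauss`.) -/
def StAct : Prop := ∀ (n : ℕ) (g : Form n) (φ : ℝ → W n → W n) (M : ℝ → W n → W n →L[ℝ] W n),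
  Riem g → IsFlow (XH (Hm g)) φ M → ∀ (z δ : W n) (t : ℝ),
  inner ℝ (φ t z).2 (M t z δ).1 - inner ℝ z.2 δ.1 = t * fderiv ℝ (Hm g) z δ

/-- First variation.  Let `ζ y = (y, op g y (lg y (Y y)))`, a smooth map; `H (ζ y) =
1/2 g_y (lg, lg)` (`StOp`: `Hm g z = 1/2 g (vel z, vel z)`, `vel g (ζ y) = lg y (Y y)`).  `StAct` with
`t = 1`, `z = ζ x`, `δ = Dζ(x) w` (so `δ.1 = w`): the right side is the derivative of `H ∘ ζ`.
`(φ 1 (ζ y)).1 = Y y` (`IsLog.exp_log`), so `(M 1 z δ).1 = DY(x) w` (`IsFlow.diff`), and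
`(φ 1 z).2 = op g (Y x) (ev φ g x (lg x (Y x)))` (`op ∘ iop = id`); `inner (op g y a) b = g_y (a, b)`. -/
def StVar : Prop := ∀ (n : ℕ) (g : Form n) (φ : ℝ → W n → W n) (M : ℝ → W n → W n →L[ℝ] W n)
  (lg : E n → E n → E n), Riem g → IsFlow (XH (Hm g)) φ M → IsLog g φ lg →
  ∀ Y : E n → E n, ContDiff ℝ ∞ Y → ∀ x w : E n,
  fderiv ℝ (fun y => 1 / 2 * g.val y (lg y (Y y)) (lg y (Y y))) x w =
    g.val (Y x) (ev φ g x (lg x (Y x))) (fderiv ℝ Y x w) - g.val x (lg x (Y x)) w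

/-- Equivariance.  `lft g a (x, op g x v) = (a x, op g (a x) (dac a x v))` (as `iop ∘ op = id`).  So by
`StEqF` `ex_(a x) (dac a x v) = (φ 1 (lft g a (x, op g x v))).1 = a (ex_x v)`.  Apply this to
`v = lg x y` and use `log_exp`. -/
def StLgI : Prop := ∀ (n : ℕ) (G : Type) [Group G] [MulAction G (E n)], Cocompact n G →
  ∀ g : Form n, Riem g → Inv G g → ∀ (φ : ℝ → W n → W n) (M : ℝ → W n → W n →L[ℝ] W n),
  IsFlow (XH (Hm g)) φ M → (∀ (a : G) (x v : E n),
    expo φ g (a • x) (dac a x v) = a • expo φ g x v) ∧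
  ∀ lg : E n → E n → E n, IsLog g φ lg → ∀ (a : G) (x y : E n),
    lg (a • x) (a • y) = dac a x (lg x y)

/-! ### B. the displacement function of a central element -/

/-- Critical points.  Let `v = lg x (z x)`.  `StVar` with `Y = (z • ·)` (smooth, derivative `dac z x`)
and `Inv` (`g_x (v, w) = g_(z x) (dac z x v, dac z x w)`): `0 = g_(z x) (P - dac z x v, dac z x w)` for
all `w`, `P = ev φ g x v`.  `dac z x` is surjective (`dac z⁻¹ (z x)` is its inverse: differentiate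
`z⁻¹ (z y) = y` and `z (z⁻¹ y) = y`), so `P = dac z x v` (`g` is positive definite). -/
def StCrit : Prop := ∀ (n : ℕ) (G : Type) [Group G] [MulAction G (E n)], Cocompact n G →
  ∀ g : Form n, Riem g → Inv G g → ∀ (φ : ℝ → W n → W n) (M : ℝ → W n → W n →L[ℝ] W n),
  IsFlow (XH (Hm g)) φ M → ∀ lg : E n → E n → E n, IsLog g φ lg → ∀ (z : G) (x : E n),
  fderiv ℝ (fun y => 1 / 2 * g.val y (lg y (z • y)) (lg y (z • y))) x = 0 →
  ev φ g x (lg x (z • x)) = dac z x (lg x (z • x))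

/-- Invariant geodesics.  Let `v = lg x (z x)`, `ζ = (x, op g x v)`.  Claim `φ 1 ζ = lft g z ζ`: the
first components are both `z x`, and the second ones are `op g (z x) (ev φ g x v)` and
`op g (z x) (dac z x v)` (`op ∘ iop = id = iop ∘ op`, `StOp`).  With `StEqF`
`φ (s + 1) ζ = φ s (lft g z ζ) = lft g z (φ s ζ)`; its first component is the first conclusion
(`NcExp`: `(φ s ζ).1 = ex_x (s v)`).  By induction `ex_x (k v) = z^k x`, so
`gd g x (z^k x) = nrm g x (k v) = k nrm g x v = k gd g x (z x)` (`IsLog`). -/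
def StIter : Prop := ∀ (n : ℕ) (G : Type) [Group G] [MulAction G (E n)], Cocompact n G →
  ∀ g : Form n, Riem g → Inv G g → ∀ (φ : ℝ → W n → W n) (M : ℝ → W n → W n →L[ℝ] W n),
  IsFlow (XH (Hm g)) φ M → ∀ lg : E n → E n → E n, IsLog g φ lg → ∀ (z : G) (x : E n),
  ev φ g x (lg x (z • x)) = dac z x (lg x (z • x)) →
  (∀ s : ℝ, expo φ g x ((s + 1) • lg x (z • x)) = z • expo φ g x (s • lg x (z • x))) ∧
  ∀ k : ℕ, gd g x (z ^ k • x) = k * gd g x (z • x)

/-- Constant displacement.  `f x = gd g x (z x)` is continuous (`StCtsD`) and invariant (`z` is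
central, `StInvD`); so it has a maximum at some `x₀` (maximum over a compact `K` with `G K = R^n`;
`K` is not empty).  `1/2 f^2 = 1/2 g (lg, lg)` has a maximum there, so its derivative vanishes, and
`StCrit`, `StIter` give `gd g x₀ (z^k x₀) = k f x₀`.  For every `y` by induction
`gd g y (z^k y) ≤ k f y` (triangle inequality, invariance), so `k f x₀ ≤ 2 gd g x₀ y + k f y` for all
`k`, and `f x₀ ≤ f y`.  So `f` is constant; then the derivative of `1/2 f^2` vanishes everywhere, and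
`StCrit` applies at every point.  `f x₀ > 0`: otherwise `lg x₀ (z x₀) = 0` and `z x₀ = ex 0 = x₀`
(`NcExp`), so `z = 1` by `free`. -/
def StCst : Prop := ∀ (n : ℕ) (G : Type) [Group G] [MulAction G (E n)], Cocompact n G →
  ∀ g : Form n, Riem g → Inv G g → ∀ (φ : ℝ → W n → W n) (M : ℝ → W n → W n →L[ℝ] W n),
  IsFlow (XH (Hm g)) φ M → ∀ lg : E n → E n → E n, IsLog g φ lg → ∀ z : G, z ≠ 1 →
  (∀ a : G, a * z = z * a) → ∃ l : ℝ, 0 < l ∧ (∀ x, gd g x (z • x) = l) ∧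
    ∀ x, ev φ g x (lg x (z • x)) = dac z x (lg x (z • x))

/-- The field.  `V x = l⁻¹ lg x (z x)`, `ψ t x = ex_x (t V x)`: smooth (`IsLog.smooth`, `StExS`, the
action is smooth).  `g (V, V) = 1` since `nrm g x (lg x (z x)) = l`.  Invariance: `StLgI` and
`a z x = z a x`.  Fix `x`, `ζ = (x, op g x (V x))`, `c t = ψ t x = (φ t ζ).1` (`NcExp`), a geodesic
with `c' t = vel g (φ t ζ)` (`StGeo1`).  `StIter` with `s = t / l` says `c (t + l) = z c t`.  By
`NcGx` `c (t + l) = ex_(c t) (l c' t)`; so `lg (c t) (z c t) = l c' t`, that is `V (c t) = c' t`.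
Then `op g (c t) (V (c t)) = (φ t ζ).2` (`op ∘ iop = id`): this is `phase`, and it gives `ode`, `geo`,
`add` (`IsFlow.add`, first component) and `zero`.  `period`: `ψ l x = ex_x (lg x (z x)) = z x`.
`comm`: `StLgI` (first part).  `dist`: `gd g x (ψ t x) = nrm g x (t V x) = |t|` (`IsLog`). -/
def StFld : Prop := ∀ (n : ℕ) (G : Type) [Group G] [MulAction G (E n)], Cocompact n G →
  ∀ g : Form n, Riem g → Inv G g → ∀ (φ : ℝ → W n → W n) (M : ℝ → W n → W n →L[ℝ] W n),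
  IsFlow (XH (Hm g)) φ M → ∀ lg : E n → E n → E n, IsLog g φ lg → ∀ z : G,
  (∀ a : G, a * z = z * a) → ∀ l : ℝ, 0 < l → (∀ x, gd g x (z • x) = l) →
  (∀ x, ev φ g x (lg x (z • x)) = dac z x (lg x (z • x))) →
  ∃ (V : E n → E n) (ψ : ℝ → E n → E n), Fld n G g φ z l V ψ

/-! ### C. the form `g (V, .)` is closed -/

/-- The form `θ = g (V, .)` is invariant under the flow.  Let `ζ y = (y, op g y (V y))`, so
`H (ζ y) = 1/2` for all `y` (`StOp`).  `StAct` with `z = ζ x`, `δ = Dζ(x) w`: the right side is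
`t D(H ∘ ζ)(x) w = 0`, `inner (ζ x).2 w = g_x (V x, w)`, `(φ t (ζ y)).1 = ψ t y` (`Fld.phase`), so
`(M t (ζ x) δ).1 = Dψ_t(x) w`, and `(φ t (ζ x)).2 = op g (ψ t x) (V (ψ t x))`. -/
def StThe : Prop := ∀ (n : ℕ) (G : Type) [Group G] [MulAction G (E n)] (g : Form n)
  (φ : ℝ → W n → W n) (M : ℝ → W n → W n →L[ℝ] W n) (z : G) (l : ℝ) (V : E n → E n)
  (ψ : ℝ → E n → E n), Riem g → IsFlow (XH (Hm g)) φ M → Fld n G g φ z l V ψ →
  ∀ (t : ℝ) (x w : E n),
    g.val (ψ t x) (V (ψ t x)) (fderiv ℝ (ψ t) x w) = g.val x (V x) w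

/-- Bounded derivatives.  By `add`, `period`, `comm`: `ψ (k l) y = z^k y` for all integers `k` (for
instance by `Int.induction_on`).  Let `t = k l + s`, `0 ≤ s ≤ l` (`k = ⌊t / l⌋`); then
`ψ t y = z^k ψ s y` for all `y`, so `Dψ_t(x) w = dac (z^k) (ψ s x) (Dψ_s(x) w)` has the same length as
`Dψ_s(x) w` (`Inv`).  The set of all `ψ s x`, `s ∈ [0, l]`, `x ∈ K`, is compact; `nrm ≤ C₁ ‖·‖` there
(`StBnd`), and the operator norm of `Dψ_s(x)` is continuous in `(s, x)`, hence bounded on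
`[0, l] x K`. -/
def StBd : Prop := ∀ (n : ℕ) (G : Type) [Group G] [MulAction G (E n)], Cocompact n G →
  ∀ (g : Form n) (φ : ℝ → W n → W n) (z : G) (l : ℝ) (V : E n → E n) (ψ : ℝ → E n → E n),
  Riem g → Inv G g → Fld n G g φ z l V ψ → ∀ K : Set (E n), IsCompact K →
  ∃ C : ℝ, 0 ≤ C ∧ ∀ (t : ℝ), ∀ x ∈ K, ∀ w : E n,
    nrm g (ψ t x) (fderiv ℝ (ψ t) x w) ≤ C * ‖w‖

/-- Climbing.  Let `θ_x = g.val x (V x)`, `b r = x + r (y - x)`, `w = y - x`,
`ρ r = κ r - ∫ 0..r θ_(b q) w dq` (`C^1`, `ρ 0 = 0`, `ρ 1 = κ - seg θ x y`), and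
`σ r = ψ (s + ρ r) (b r)`, a `C^1` curve (`σ` may be used as a curve on all of `R`) from `ψ s x` to
`ψ (s + κ - seg θ x y) y`.  `σ' = ρ' V (σ) + U`, `U = Dψ_(s + ρ)(b) w` (chain rule for the
jointly smooth `ψ`).  By `StThe`, `θ_σ (U) = θ_b w`, so `θ_σ (σ') = ρ' + θ_b w = κ` (`g(V,V) = 1`), and
`g (σ', σ') = ρ'^2 + 2 ρ' θ_b w + g (U, U) = κ^2 - (θ_b w)^2 + g (U, U) ≤ κ^2 + g (U, U)`.  By the
hypothesis (`StBd` for the segment) `g (U, U) ≤ K^2` with `K = C ‖w‖` independent of `s` and `κ`.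
Use the last part of `StGd` on `[0, 1]`. -/
def StClimb : Prop := ∀ (n : ℕ) (G : Type) [Group G] [MulAction G (E n)] (g : Form n)
  (φ : ℝ → W n → W n) (z : G) (l : ℝ) (V : E n → E n) (ψ : ℝ → E n → E n), Riem g →
  Fld n G g φ z l V ψ →
  (∀ (t : ℝ) (x w : E n), g.val (ψ t x) (V (ψ t x)) (fderiv ℝ (ψ t) x w) = g.val x (V x) w) →
  ∀ x y : E n, (∃ C : ℝ, 0 ≤ C ∧ ∀ (t : ℝ), ∀ b ∈ segment ℝ x y, ∀ w : E n,
    nrm g (ψ t b) (fderiv ℝ (ψ t) b w) ≤ C * ‖w‖) →
  ∃ K : ℝ, 0 ≤ K ∧ ∀ s κ : ℝ,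
    gd g (ψ s x) (ψ (s + κ - seg (fun p => g.val p (V p)) x y) y) ≤ Real.sqrt (κ ^ 2 + K ^ 2)

/-- Triangles.  Let `θ = g (V, .)`.  `seg θ y x = - seg θ x y` (substitute `s ↦ 1 - s`), so it is
enough to prove `A := seg θ x y + seg θ y z + seg θ z x ≥ 0` for all `x, y, z` (then apply it to
`x, z, y`).  Let `T > |A|` and `κ = (T + A) / 3 > 0`.  Three applications of the climbing hypothesis
(from `x` to `ψ (κ - seg θ x y) y`, to `ψ (2 κ - seg θ x y - seg θ y z) z`, to `ψ T x`), the triangle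
inequality (`StGd`) and `Fld.dist` give `T = gd g x (ψ T x) ≤ 3 κ + C / (2 κ) = T + A + C / (2 κ)`
with `C = K₁^2 + K₂^2 + K₃^2` (`sqrt (κ^2 + K^2) ≤ κ + K^2 / (2 κ)`).  Let `T → ∞`. -/
def StTri : Prop := ∀ (n : ℕ) (G : Type) [Group G] [MulAction G (E n)] (g : Form n)
  (φ : ℝ → W n → W n) (z : G) (l : ℝ) (V : E n → E n) (ψ : ℝ → E n → E n),
  Fld n G g φ z l V ψ →
  (∀ x y : E n, ∃ K : ℝ, 0 ≤ K ∧ ∀ s κ : ℝ,
    gd g (ψ s x) (ψ (s + κ - seg (fun p => g.val p (V p)) x y) y) ≤ Real.sqrt (κ ^ 2 + K ^ 2)) →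
  ∀ x y p : E n, seg (fun p => g.val p (V p)) x y + seg (fun p => g.val p (V p)) y p +
    seg (fun p => g.val p (V p)) p x = 0

/-- The potential.  `τ x = seg α 0 x`.  With `seg α y x = - seg α x y` and the hypothesis,
`τ (x + v) - τ x = seg α x (x + v) = ∫ α (x + s v) v ds`, which is `α x v + o(‖v‖)` by continuity.  So
`τ` is differentiable with the smooth derivative `α`, hence smooth (`contDiff_infty_iff_fderiv`). -/
def StPotG : Prop := ∀ (n : ℕ) (α : E n → E n →L[ℝ] ℝ), ContDiff ℝ ∞ α →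
  (∀ x y z : E n, seg α x y + seg α y z + seg α z x = 0) →
  ∃ τ : E n → ℝ, ContDiff ℝ ∞ τ ∧ ∀ x v, fderiv ℝ τ x v = α x v

/-- The potential along the flow and under the group.  `t ↦ τ (ψ t x)` has the derivative
`g (V, V) = 1`.  `y ↦ τ (a y) - τ y` has the derivative
`g_(a y) (V (a y), dac a y v) - g_y (V y, v) = 0` (`inv` and `Inv`), so it is constant. -/
def StAxF : Prop := ∀ (n : ℕ) (G : Type) [Group G] [MulAction G (E n)], Cocompact n G →
  ∀ (g : Form n) (φ : ℝ → W n → W n) (z : G) (l : ℝ) (V : E n → E n) (ψ : ℝ → E n → E n),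
  Inv G g → Fld n G g φ z l V ψ → ∀ τ : E n → ℝ, ContDiff ℝ ∞ τ →
  (∀ x v, fderiv ℝ τ x v = g.val x (V x) v) → Axis n G g z l V τ ψ

/-- THEOREM ST.  Every metric without conjugate points has the canonical field of every central
element.  `StFlow`, `StLog`, `StCst`, `StFld`, `StThe`, `StBd` (for the segment, which is compact),
`StClimb`, `StTri`, `StPotG`, `StAxF`. -/
def StAx : Prop := ∀ (n : ℕ) (G : Type) [Group G] [MulAction G (E n)], Cocompact n G →
  ∀ g : Form n, Riem g → Inv G g → NoConj g → ∀ z : G, z ≠ 1 → (∀ a : G, a * z = z * a) →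
  ∃ (l : ℝ) (V : E n → E n) (τ : E n → ℝ) (ψ : ℝ → E n → E n), Axis n G g z l V τ ψ

end Pool.Agent.STR
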