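import Mathlib
import Pool.Agent.Work.MP_13b5d9_gt.ST.Stmts

set_option autoImplicit false

/-!
# MP_13b5d9_gt, block ST, item AxF: the potential along the flow and under the group
-/

open MeasureTheory Set Filter Topology
open scoped ContDiff ENNReal
open Pool.Agent.Work.MP_c9f990_an.Al (IsFlow)

namespace Pool.Agent.STR

open Pool.Agent.MLS

theorem pr_AxF : StAxF := by
  intro n G _ _ hG g φ z l V ψ hI hF τ hτ hd
  have hτd : Differentiable ℝ τ := hτ.differentiable (by simp)
  refine
    { pos := hF.pos
      smoothV := hF.smoothV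
      smoothT := hτ
      smoothF := hF.smoothF
      unit := hF.unit
      grad := hd
      inv := hF.inv
      zero := hF.zero
      ode := hF.ode
      add := hF.add
      geo := hF.geo
      period := hF.period
      comm := hF.comm
      height := ?_
      deck := ?_ }
  · intro t x
    have h1 : ∀ s, HasDerivAt (fun s => τ (ψ s x) - s) 0 s := by
      intro s
      have h2 : HasDerivAt (fun s => τ (ψ s x)) (fderiv ℝ τ (ψ s x) (V (ψ s x))) s :=
        (hτd _).hasFDerivAt.comp_hasDerivAt s (hF.ode x s)
      rw [hd, hF.unit] at h2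
      have h3 := h2.sub (hasDerivAt_id s)
      rw [sub_self] at h3
      exact h3
    have h2 := is_const_of_deriv_eq_zero (fun s => (h1 s).differentiableAt)
      (fun s => (h1 s).deriv) t 0
    simp only [hF.zero, sub_zero] at h2
    linarith
  · intro a
    have hda : ∀ x, HasFDerivAt (fun y : E n => a • y) (dac a x) x := fun x =>
      ((hG.smooth a).differentiable (by simp) x).hasFDerivAt
    have h1 : ∀ x, HasFDerivAt (fun y => τ (a • y) - τ y) (0 : E n →L[ℝ] ℝ) x := by
      intro x
      have h2 : HasFDerivAt (fun y => τ (a • y)) ((fderiv ℝ τ (a • x)).comp (dac a x)) x :=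
        (hτd _).hasFDerivAt.comp x (hda x)
      have h3 := h2.sub (hτd x).hasFDerivAt
      have h4 : (fderiv ℝ τ (a • x)).comp (dac a x) - fderiv ℝ τ x = 0 := by
        ext v
        show fderiv ℝ τ (a • x) (dac a x v) - fderiv ℝ τ x v = 0
        rw [hd, hd, hF.inv, hI a x (V x) v, sub_self]
      rw [h4] at h3
      exact h3
    refine ⟨τ (a • (0 : E n)) - τ 0, fun x => ?_⟩
    have h2 := is_const_of_fderiv_eq_zero (𝕜 := ℝ) (fun x => (h1 x).differentiableAt)
      (fun x => (h1 x).fderiv) x 0
    linarith

end Pool.Agent.STR
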