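import Mathlib
import Pool.Agent.Work.MP_13b5d9_gt.ST.Stmts

set_option autoImplicit false

/-!
# MP_13b5d9_gt, block ST, item Bd: bounded derivatives of the flow of the canonical field
-/

open MeasureTheory Set Filter Topology
open scoped ContDiff ENNReal
open Pool.Agent.Work.MP_c9f990_an.Al (IsFlow)

namespace Pool.Agent.STR

open Pool.Agent.MLS

namespace IBd

/-- the flow at integer multiples of the period -/
theorem iter {n : ℕ} {G : Type} [Group G] [MulAction G (E n)] {g : Form n}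
    {φ : ℝ → W n → W n} {z : G} {l : ℝ} {V : E n → E n} {ψ : ℝ → E n → E n}
    (h : Fld n G g φ z l V ψ) (k : ℤ) : ∀ y : E n, ψ (k * l) y = z ^ k • y := by
  induction k using Int.induction_on with
  | zero =>
    intro y
    rw [Int.cast_zero, zero_mul, h.zero, zpow_zero, one_smul]
  | succ i ih =>
    intro y
    have e : (((i : ℤ) + 1 : ℤ) : ℝ) * l = l + ((i : ℤ) : ℝ) * l := by
      push_cast
      ring
    rw [e, h.add, ih, h.period, smul_smul, ← zpow_one_add, add_comm]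
  | pred i ih =>
    intro y
    have e : ((-(i : ℤ) : ℤ) : ℝ) * l = l + ((-(i : ℤ) - 1 : ℤ) : ℝ) * l := by
      push_cast
      ring
    have h1 := ih y
    rw [e, h.add, h.period] at h1
    have h2 : ψ (((-(i : ℤ) - 1 : ℤ) : ℝ) * l) y = z⁻¹ • (z ^ (-(i : ℤ)) • y) := by
      rw [← h1, inv_smul_smul]
    rw [h2, smul_smul]
    congr 1
    rw [sub_eq_add_neg, add_comm, zpow_add, zpow_neg_one]

/-- reduction of the time to a period -/
theorem red {n : ℕ} {G : Type} [Group G] [MulAction G (E n)] {g : Form n}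
    {φ : ℝ → W n → W n} {z : G} {l : ℝ} {V : E n → E n} {ψ : ℝ → E n → E n}
    (h : Fld n G g φ z l V ψ) (t : ℝ) :
    ∃ (k : ℤ) (s : ℝ), s ∈ Icc 0 l ∧ ψ t = fun y => z ^ k • ψ s y := by
  refine ⟨⌊t / l⌋, t - ⌊t / l⌋ * l, ⟨?_, ?_⟩, ?_⟩
  · have h1 := Int.floor_le (t / l)
    have h2 : (⌊t / l⌋ : ℝ) * l ≤ t / l * l := mul_le_mul_of_nonneg_right h1 h.pos.le
    rw [div_mul_cancel₀ _ h.pos.ne'] at h2
    linarith
  · have h1 := (Int.lt_floor_add_one (t / l)).le
    have h2 : t / l * l ≤ ((⌊t / l⌋ : ℝ) + 1) * l := mul_le_mul_of_nonneg_right h1 h.pos.le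
    rw [div_mul_cancel₀ _ h.pos.ne'] at h2
    linarith
  · funext y
    have e : t = ⌊t / l⌋ * l + (t - ⌊t / l⌋ * l) := by ring
    conv_lhs => rw [e]
    rw [h.add, iter h]

end IBd

/-- the derivatives of the flow of the canonical field are bounded -/
theorem pr_Bd (h1 : StBnd) : StBd := by
  intro n G _ _ hc g φ z l V ψ hg hi h K hK
  have hsm : ∀ s : ℝ, ContDiff ℝ ∞ (ψ s) := fun s =>
    h.smoothF.comp (contDiff_const.prodMk contDiff_id)
  -- the compact set of the values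
  have hcomp : IsCompact ((fun p : ℝ × E n => ψ p.1 p.2) '' (Icc 0 l ×ˢ K)) :=
    (isCompact_Icc.prod hK).image h.smoothF.continuous
  obtain ⟨C₁, hC₁, hb⟩ := (h1 n g _ hcomp).1
  -- the derivative is jointly continuous
  have hD : Continuous (fun p : ℝ × E n => fderiv ℝ (ψ p.1) p.2) := by
    have hf : ContDiff ℝ 1 (Function.uncurry (fun (p : ℝ × E n) (y : E n) => ψ p.1 y)) := by
      have h2 : ContDiff ℝ ∞ (fun q : (ℝ × E n) × E n => ψ q.1.1 q.2) :=
        h.smoothF.comp ((contDiff_fst.comp contDiff_fst).prodMk contDiff_snd)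
      exact h2.of_le (by exact_mod_cast le_top)
    have h3 := ContDiff.fderiv (n := 0) hf (contDiff_snd (𝕜 := ℝ) (E := ℝ) (F := E n)) (by norm_num)
    exact h3.continuous
  obtain ⟨C₂, hC₂⟩ := (isCompact_Icc.prod hK).exists_bound_of_continuousOn hD.continuousOn
  refine ⟨C₁ * max C₂ 0, mul_nonneg hC₁.le (le_max_right _ _), ?_⟩
  intro t x hx w
  obtain ⟨k, s, hs, hk⟩ := IBd.red h t
  have hmem : (s, x) ∈ Icc 0 l ×ˢ K := ⟨hs, hx⟩
  have hdiff : fderiv ℝ (ψ t) x w = dac (z ^ k) (ψ s x) (fderiv ℝ (ψ s) x w) := by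
    have ha : DifferentiableAt ℝ (fun y : E n => z ^ k • y) (ψ s x) :=
      ((hc.smooth (z ^ k)).differentiable (by norm_num)).differentiableAt
    have hp : DifferentiableAt ℝ (ψ s) x := ((hsm s).differentiable (by norm_num)).differentiableAt
    have h4 := ha.hasFDerivAt.comp x hp.hasFDerivAt
    have h5 : fderiv ℝ (ψ t) x = (fderiv ℝ (fun y : E n => z ^ k • y) (ψ s x)).comp
        (fderiv ℝ (ψ s) x) := by
      rw [hk]
      exact h4.fderiv
    rw [h5]
    rfl
  have hval : ψ t x = z ^ k • ψ s x := congrFun hk x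
  have hn : nrm g (ψ t x) (fderiv ℝ (ψ t) x w) = nrm g (ψ s x) (fderiv ℝ (ψ s) x w) := by
    unfold nrm
    rw [hdiff, hval, hi]
  rw [hn]
  calc nrm g (ψ s x) (fderiv ℝ (ψ s) x w) ≤ C₁ * ‖fderiv ℝ (ψ s) x w‖ :=
        hb _ ⟨(s, x), hmem, rfl⟩ _
    _ ≤ C₁ * (max C₂ 0 * ‖w‖) := by
        refine mul_le_mul_of_nonneg_left ?_ hC₁.le
        refine (ContinuousLinearMap.le_opNorm _ _).trans ?_
        exact mul_le_mul_of_nonneg_right ((hC₂ (s, x) hmem).trans (le_max_left _ _)) (norm_nonneg _)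
    _ = C₁ * max C₂ 0 * ‖w‖ := by ring

end Pool.Agent.STR
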