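import Mathlib
import Pool.Agent.Work.MP_13b5d9_gt.ST.Stmts

/-!
# MP_13b5d9_gt, block ST, item Climb
-/

set_option autoImplicit false

open MeasureTheory Set Filter Topology
open scoped ContDiff ENNReal

namespace Pool.Agent.STR

open Pool.Agent.MLS

namespace IClimb

/-- the square of the length of `r V + U` -/
theorem quad {n : ℕ} (g : Form n) (p V U : E n) (κ θ K : ℝ) (hV : g.val p V V = 1)
    (hU : g.val p V U = θ) (hK : nrm g p U ≤ K) :
    g.val p ((κ - θ) • V + U) ((κ - θ) • V + U) ≤ κ ^ 2 + K ^ 2 := by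
  have hs : g.val p U V = θ := by rw [g.symm p U V, hU]
  have h0 : 0 ≤ g.val p U U := g.nonneg p U
  have h1 : g.val p U U ≤ K ^ 2 := by
    have h2 : g.val p U U = (nrm g p U) ^ 2 := by
      unfold nrm
      rw [Real.sq_sqrt h0]
    rw [h2]
    exact pow_le_pow_left₀ (Real.sqrt_nonneg _) hK 2
  simp only [map_add, map_smul, add_apply, smul_apply,
    smul_eq_mul, hV, hU, hs]
  nlinarith [sq_nonneg θ]

/-- derivative of the moving point `ψ (t r) (b r)` -/
theorem moving {n : ℕ} (ψ : ℝ → E n → E n) (V : E n → E n)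
    (hψ : ContDiff ℝ ∞ (fun p : ℝ × E n => ψ p.1 p.2))
    (hode : ∀ x t, HasDerivAt (fun s => ψ s x) (V (ψ t x)) t)
    (T : ℝ → ℝ) (b : ℝ → E n) (r T' : ℝ) (w : E n) (hT : HasDerivAt T T' r)
    (hb : HasDerivAt b w r) :
    HasDerivAt (fun q => ψ (T q) (b q))
      (T' • V (ψ (T r) (b r)) + fderiv ℝ (ψ (T r)) (b r) w) r := by
  have hF : HasFDerivAt (fun p : ℝ × E n => ψ p.1 p.2)
      (fderiv ℝ (fun p : ℝ × E n => ψ p.1 p.2) (T r, b r)) (T r, b r) :=
    ((hψ.differentiable (by simp)) _).hasFDerivAt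
  set L := fderiv ℝ (fun p : ℝ × E n => ψ p.1 p.2) (T r, b r) with hL
  have h1 : HasDerivAt (fun q => (T q, b q)) (T', w) r := hT.prodMk hb
  have h2 : HasDerivAt (fun q => ψ (T q) (b q)) (L (T', w)) r :=
    HasFDerivAt.comp_hasDerivAt (f := fun q => (T q, b q))
      (l := fun p : ℝ × E n => ψ p.1 p.2) r hF h1
  have h3 : L (1, 0) = V (ψ (T r) (b r)) := by
    have h4 : HasDerivAt (fun q : ℝ => (q, b r)) ((1 : ℝ), (0 : E n)) (T r) :=
      (hasDerivAt_id _).prodMk (hasDerivAt_const _ _)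
    have h5 : HasDerivAt (fun q : ℝ => ψ q (b r)) (L (1, 0)) (T r) :=
      HasFDerivAt.comp_hasDerivAt (f := fun q : ℝ => (q, b r))
        (l := fun p : ℝ × E n => ψ p.1 p.2) (T r) hF h4
    exact h5.unique (hode (b r) (T r))
  have h6 : L (0, w) = fderiv ℝ (ψ (T r)) (b r) w := by
    have h7 : HasFDerivAt (fun p : E n => (T r, p)) (ContinuousLinearMap.inr ℝ ℝ (E n)) (b r) :=
      hasFDerivAt_prodMk_right (T r) (b r)
    have h8 : HasFDerivAt (ψ (T r)) (L.comp (ContinuousLinearMap.inr ℝ ℝ (E n))) (b r) :=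
      hF.comp (b r) h7
    rw [h8.fderiv]
    rfl
  have h9 : L (T', w) = T' • V (ψ (T r) (b r)) + fderiv ℝ (ψ (T r)) (b r) w := by
    have h10 : ((T', w) : ℝ × E n) = T' • ((1 : ℝ), (0 : E n)) + ((0 : ℝ), w) := by
      simp
    rw [h10, map_add, map_smul, h3, h6]
  rw [← h9]
  exact h2

end IClimb

open IClimb in
theorem pr_Climb (h1 : StGd) : StClimb := by
  intro n G _ _ g φ z l V ψ hg hF hThe x y hex
  obtain ⟨C, hC0, hC⟩ := hex
  set w : E n := y - x with hw
  refine ⟨C * ‖w‖, by positivity, fun s κ => ?_⟩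
  -- the curve
  set α : ℝ → ℝ := fun q => g.val (x + q • w) (V (x + q • w)) w with hα
  have hbc : Continuous (fun q : ℝ => x + q • w) := by fun_prop
  have hαc : Continuous α := by
    have h2 : Continuous (fun q : ℝ => g.val (x + q • w)) := g.smooth.continuous.comp hbc
    exact (h2.clm_apply (hF.smoothV.continuous.comp hbc)).clm_apply continuous_const
  set ρ : ℝ → ℝ := fun r => s + (κ * r - ∫ q in (0 : ℝ)..r, α q) with hρ
  have hρd : ∀ r, HasDerivAt ρ (κ - α r) r := by
    intro r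
    have h2 : HasDerivAt (fun r => ∫ q in (0 : ℝ)..r, α q) (α r) r :=
      intervalIntegral.integral_hasDerivAt_right (hαc.intervalIntegrable _ _)
        (hαc.stronglyMeasurableAtFilter _ _) hαc.continuousAt
    have h3 : HasDerivAt (fun r : ℝ => κ * r) κ r := by
      simpa using (hasDerivAt_id r).const_mul κ
    exact (h3.sub h2).const_add s
  have hρ' : deriv ρ = fun r => κ - α r := funext fun r => (hρd r).deriv
  have hρc : ContDiff ℝ 1 ρ := by
    rw [contDiff_one_iff_deriv]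
    refine ⟨fun r => (hρd r).differentiableAt, ?_⟩
    rw [hρ']
    fun_prop
  have hbd : ∀ r, HasDerivAt (fun q : ℝ => x + q • w) w r := by
    intro r
    have h3 : HasDerivAt (fun q : ℝ => q • w) ((1 : ℝ) • w) r := (hasDerivAt_id r).smul_const w
    rw [one_smul] at h3
    exact h3.const_add x
  set σ : ℝ → E n := fun r => ψ (ρ r) (x + r • w) with hσ
  have hσd : ∀ r, HasDerivAt σ ((κ - α r) • V (σ r) +
      fderiv ℝ (ψ (ρ r)) (x + r • w) w) r := fun r =>
    moving ψ V hF.smoothF hF.ode ρ (fun q => x + q • w) r _ w (hρd r) (hbd r)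
  have hσc : ContDiff ℝ 1 σ := by
    have h2 : ContDiff ℝ 1 (fun p : ℝ × E n => ψ p.1 p.2) := hF.smoothF.of_le (by simp)
    have h3 : ContDiff ℝ 1 (fun r : ℝ => (ρ r, x + r • w)) :=
      hρc.prodMk (contDiff_const.add (contDiff_id.smul contDiff_const))
    exact h2.comp h3
  have h0 : σ 0 = ψ s x := by simp [hσ, hρ]
  have h1' : σ 1 = ψ (s + κ - seg (fun p => g.val p (V p)) x y) y := by
    have h4 : ∫ q in (0 : ℝ)..1, α q = seg (fun p => g.val p (V p)) x y := rfl
    have h5 : x + (1 : ℝ) • w = y := by rw [one_smul, hw]; abel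
    have h6 : ρ 1 = s + κ - seg (fun p => g.val p (V p)) x y := by
      simp only [hρ, h4]
      ring
    simp only [hσ, h5, h6]
  have hb := (h1 n g).2.2.2 σ 0 1 hσc zero_le_one
  rw [h0, h1'] at hb
  refine hb.trans ?_
  -- bound of the integrand
  have hbd2 : ∀ r ∈ Icc (0 : ℝ) 1, nrm g (σ r) (deriv σ r) ≤
      Real.sqrt (κ ^ 2 + (C * ‖w‖) ^ 2) := by
    intro r hr
    rw [(hσd r).deriv]
    unfold nrm
    apply Real.sqrt_le_sqrt
    have hmem : x + r • w ∈ segment ℝ x y := by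
      rw [segment_eq_image']
      exact ⟨r, hr, rfl⟩
    exact quad g (σ r) (V (σ r)) _ κ (α r) (C * ‖w‖) (hF.unit _)
      (hThe (ρ r) (x + r • w) w) (hC (ρ r) _ hmem w)
  have hσ' : Continuous (deriv σ) := hσc.continuous_deriv le_rfl
  have hci : Continuous (fun r => nrm g (σ r) (deriv σ r)) := by
    unfold nrm
    apply Real.continuous_sqrt.comp
    have h7 : Continuous (fun r => g.val (σ r)) := g.smooth.continuous.comp hσc.continuous
    exact (h7.clm_apply hσ').clm_apply hσ'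
  calc ∫ t in (0 : ℝ)..1, nrm g (σ t) (deriv σ t)
      ≤ ∫ _ in (0 : ℝ)..1, Real.sqrt (κ ^ 2 + (C * ‖w‖) ^ 2) :=
        intervalIntegral.integral_mono_on zero_le_one (hci.intervalIntegrable _ _)
          (continuous_const.intervalIntegrable _ _) hbd2
    _ = Real.sqrt (κ ^ 2 + (C * ‖w‖) ^ 2) := by simp

end Pool.Agent.STR
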