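import Pool.Agent.Work.MP_13b5d9_gt.ST.Stmts
import Mathlib

set_option autoImplicit false

/-!
# MP_13b5d9_gt, block ST, item Crit: critical points of the displacement function
-/

open MeasureTheory Set Filter Topology
open scoped ContDiff ENNReal
open Pool.Agent.Work.MP_c9f990_an.Al (IsFlow)

namespace Pool.Agent.STR

open Pool.Agent.MLS

namespace ICrit

/-- the derivative of the action is surjective -/
lemma dac_dac {n : ℕ} {G : Type} [Group G] [MulAction G (E n)] (hG : Cocompact n G) (z : G)
    (x u : E n) : dac z x (dac z⁻¹ (z • x) u) = u := by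
  have h1 : HasFDerivAt (fun y : E n => z⁻¹ • y) (dac z⁻¹ (z • x)) (z • x) :=
    (((hG.smooth z⁻¹).differentiable (by norm_num)) (z • x)).hasFDerivAt
  have h2 : HasFDerivAt (fun y : E n => z • y) (dac z x) x :=
    (((hG.smooth z).differentiable (by norm_num)) x).hasFDerivAt
  have h3 : z⁻¹ • (z • x) = x := inv_smul_smul z x
  have h4 : HasFDerivAt (fun y : E n => z • y) (dac z x) (z⁻¹ • (z • x)) := by
    rw [h3]
    exact h2
  have h5 := h4.comp (z • x) h1
  have h6 : ((fun y : E n => z • y) ∘ fun y : E n => z⁻¹ • y) = id := by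
    funext y
    simp
  rw [h6] at h5
  have h7 := h5.unique (hasFDerivAt_id (z • x))
  have h8 := DFunLike.congr_fun h7 u
  simpa using h8

/-- a positive definite form is nondegenerate -/
lemma eq_of {n : ℕ} {g : Form n} (hg : Riem g) (x a b : E n)
    (h : ∀ w, g.val x a w = g.val x b w) : a = b := by
  by_contra hne
  have h1 : a - b ≠ 0 := sub_ne_zero.2 hne
  have h2 := hg x (a - b) h1
  have h4 : g.val x (a - b) = g.val x a - g.val x b := map_sub _ _ _
  have h3 : g.val x (a - b) (a - b) = 0 := by
    rw [h4, _root_.sub_apply, h (a - b), sub_self]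
  rw [h3] at h2
  exact lt_irrefl 0 h2

end ICrit

open ICrit in
theorem pr_Crit (h1 : StVar) : StCrit := by
  intro n G _ _ hG g hg hI φ M hφ lg hlg z x hx
  have h2 := h1 n g φ M lg hg hφ hlg (fun y => z • y) (hG.smooth z) x
  have hx' : fderiv ℝ (fun y => 1 / 2 * g.val y (lg y ((fun y => z • y) y))
      (lg y ((fun y => z • y) y))) x = 0 := hx
  refine eq_of hg (z • x) _ _ (fun w => ?_)
  have h3 := h2 (dac z⁻¹ (z • x) w)
  rw [hx'] at h3
  have h4 : fderiv ℝ (fun y : E n => z • y) x (dac z⁻¹ (z • x) w) = w := dac_dac hG z x w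
  rw [h4] at h3
  have h5 : g.val x (lg x (z • x)) (dac z⁻¹ (z • x) w) =
      g.val (z • x) (dac z x (lg x (z • x))) w := by
    rw [← hI z x, dac_dac hG z x w]
  have h6 : (0 : ℝ) = g.val (z • x) (ev φ g x (lg x (z • x))) w -
      g.val (z • x) (dac z x (lg x (z • x))) w := by
    rw [← h5]
    exact h3
  linarith

end Pool.Agent.STR
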