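import Pool.Agent.Work.MP_13b5d9_gt.ST.Stmts

set_option autoImplicit false

/-! # MP_13b5d9_gt, block ST, item Cst -/

open MeasureTheory Set Filter Topology
open scoped ContDiff ENNReal
open Pool.Agent.Work.MP_c9f990_an.Al (IsFlow)

namespace Pool.Agent.STR

open Pool.Agent.MLS

namespace ICst

variable {n : ℕ} {G : Type} [Group G] [MulAction G (E n)]

lemma inv_disp (h3 : StInvD) (hG : Cocompact n G) {g : Form n} (hI : Inv G g) {z : G}
    (hc : ∀ a : G, a * z = z * a) (a : G) (x : E n) :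
    gd g (a • x) (z • a • x) = gd g x (z • x) := by
  rw [smul_smul, ← hc a, ← smul_smul]
  exact (h3 n G hG g hI).2 a x (z • x)

lemma exists_max (h2 : StCtsD) (h3 : StInvD) (hG : Cocompact n G) {g : Form n} (hI : Inv G g)
    {z : G} (hc : ∀ a : G, a * z = z * a) :
    ∃ x₀ : E n, ∀ x, gd g x (z • x) ≤ gd g x₀ (z • x₀) := by
  obtain ⟨K, hK, hcov⟩ := hG.cocompact
  have hcont : Continuous (fun x : E n => gd g x (z • x)) :=
    (h2 n g).comp (continuous_id.prodMk (hG.smooth z).continuous)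
  have hne : K.Nonempty := by
    obtain ⟨a, ha⟩ := hcov 0
    exact ⟨_, ha⟩
  obtain ⟨x₀, _, hmax⟩ := hK.exists_isMaxOn hne hcont.continuousOn
  refine ⟨x₀, fun x => ?_⟩
  obtain ⟨a, ha⟩ := hcov x
  have h := hmax ha
  change gd g (a • x) (z • a • x) ≤ gd g x₀ (z • x₀) at h
  rw [inv_disp h3 hG hI hc] at h
  exact h

lemma iter_le (h1 : StGd) (h3 : StInvD) (hG : Cocompact n G) {g : Form n} (hI : Inv G g) (z : G)
    (y : E n) (k : ℕ) : gd g y (z ^ k • y) ≤ k * gd g y (z • y) := by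
  have hpm := (h1 n g).2.1
  induction k with
  | zero => simp [hpm.self]
  | succ k ih =>
    have e : gd g (z ^ k • y) (z ^ (k + 1) • y) = gd g y (z • y) := by
      rw [pow_succ, ← smul_smul]
      exact (h3 n G hG g hI).2 (z ^ k) y (z • y)
    have := hpm.tri y (z ^ k • y) (z ^ (k + 1) • y)
    rw [e] at this
    push_cast
    linarith

lemma disp_sq {g : Form n} {φ : ℝ → W n → W n} {lg : E n → E n → E n} (hlg : IsLog g φ lg) (z : G)
    (y : E n) : 1 / 2 * g.val y (lg y (z • y)) (lg y (z • y)) = 1 / 2 * gd g y (z • y) ^ 2 := by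
  rw [hlg.dist, nrm, Real.sq_sqrt (g.nonneg _ _)]

lemma disp_nonneg {g : Form n} {φ : ℝ → W n → W n} {lg : E n → E n → E n} (hlg : IsLog g φ lg)
    (x y : E n) : 0 ≤ gd g x y := by
  rw [hlg.dist, nrm]
  exact Real.sqrt_nonneg _

end ICst

open ICst in
/-- constant displacement of a central element -/
theorem pr_Cst (h1 : StGd) (h2 : StCtsD) (h3 : StInvD) (h4 : StCrit) (h5 : StIter) (h6 : NcExp) :
    StCst := by
  intro n G _ _ hG g hR hI φ M hφ lg hlg z hz hc
  have hpm := (h1 n g).2.1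
  obtain ⟨x₀, hmax⟩ := exists_max (G := G) h2 h3 hG hI hc
  have hfun : (fun y : E n => 1 / 2 * g.val y (lg y (z • y)) (lg y (z • y))) =
      fun y => 1 / 2 * gd g y (z • y) ^ 2 := by
    funext y
    exact disp_sq hlg z y
  have hd0 : fderiv ℝ (fun y : E n => 1 / 2 * g.val y (lg y (z • y)) (lg y (z • y))) x₀ = 0 := by
    apply IsLocalMax.fderiv_eq_zero
    rw [hfun]
    refine Filter.Eventually.of_forall fun y => ?_
    have h := hmax y
    have h0 := disp_nonneg hlg y (z • y)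
    have : gd g y (z • y) ^ 2 ≤ gd g x₀ (z • x₀) ^ 2 := by gcongr
    show 1 / 2 * gd g y (z • y) ^ 2 ≤ 1 / 2 * gd g x₀ (z • x₀) ^ 2
    linarith
  have hx₀ := h4 n G hG g hR hI φ M hφ lg hlg z x₀ hd0
  have hit := (h5 n G hG g hR hI φ M hφ lg hlg z x₀ hx₀).2
  have hconst : ∀ y, gd g y (z • y) = gd g x₀ (z • x₀) := by
    intro y
    apply le_antisymm (hmax y)
    by_contra hlt
    rw [not_le] at hlt
    have key : ∀ k : ℕ, (k : ℝ) * (gd g x₀ (z • x₀) - gd g y (z • y)) ≤ 2 * gd g x₀ y := by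
      intro k
      have t1 := hpm.tri x₀ y (z ^ k • x₀)
      have t2 := hpm.tri y (z ^ k • y) (z ^ k • x₀)
      have t3 : gd g (z ^ k • y) (z ^ k • x₀) = gd g y x₀ := (h3 n G hG g hI).2 (z ^ k) y x₀
      have t4 := iter_le h1 h3 hG hI z y k
      have t5 := hit k
      have t6 := hpm.symm x₀ y
      rw [mul_sub]
      linarith
    obtain ⟨k, hk⟩ := exists_nat_gt (2 * gd g x₀ y / (gd g x₀ (z • x₀) - gd g y (z • y)))
    have hpos : 0 < gd g x₀ (z • x₀) - gd g y (z • y) := by linarith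
    rw [div_lt_iff₀ hpos] at hk
    linarith [key k]
  have hl0 : 0 < gd g x₀ (z • x₀) := by
    rcases (disp_nonneg hlg x₀ (z • x₀)).lt_or_eq with h | h
    · exact h
    · exfalso
      apply hz
      have h0 : nrm g x₀ (lg x₀ (z • x₀)) = 0 := by rw [← hlg.dist]; exact h.symm
      have hv : lg x₀ (z • x₀) = 0 := by
        by_contra hne
        have hp := hR x₀ _ hne
        rw [nrm, Real.sqrt_eq_zero (g.nonneg _ _)] at h0
        linarith
      have he := hlg.exp_log x₀ (z • x₀)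
      rw [hv, (h6 n g φ M hR hφ x₀).2.2.2.2] at he
      exact hG.free z x₀ he.symm
  refine ⟨gd g x₀ (z • x₀), hl0, hconst, fun x => ?_⟩
  apply h4 n G hG g hR hI φ M hφ lg hlg z x
  rw [hfun]
  have : (fun y : E n => 1 / 2 * gd g y (z • y) ^ 2) =
      fun _ => 1 / 2 * gd g x₀ (z • x₀) ^ 2 := by
    funext y
    rw [hconst y]
  rw [this]
  simp

end Pool.Agent.STR
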