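import Mathlib
import Pool.Agent.Work.MP_25cd3b_gt.M.Stmts

set_option autoImplicit false

/-!
# MP_13b5d9_gt, item SmF: the flow of a smooth complete field is smooth
-/

open MeasureTheory Set Filter Topology
open scoped ContDiff ENNReal NNReal
open Pool.Agent.Work.MP_c9f990_an.Al (IsFlow)

namespace Pool.Agent.STR

open Pool.Agent.MLS

/-- The complete flow of a smooth vector field is smooth in time and initial point. -/
def StSmF : Prop := ∀ (Q : Type) [NormedAddCommGroup Q] [NormedSpace ℝ Q]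
  [FiniteDimensional ℝ Q] (F : Q → Q) (φ : ℝ → Q → Q) (M : ℝ → Q → Q →L[ℝ] Q),
  ContDiff ℝ ∞ F → IsFlow F φ M → ContDiff ℝ ∞ (fun p : ℝ × Q => φ p.1 p.2)

namespace ISmF

variable {Q : Type} [NormedAddCommGroup Q] [NormedSpace ℝ Q]

/-- the field of the equation together with its variational equation -/
noncomputable def ext (F : Q → Q) (y : Q × (Q →L[ℝ] Q)) : Q × (Q →L[ℝ] Q) :=
  (F y.1, (fderiv ℝ F y.1).comp y.2)

theorem ext_smooth {F : Q → Q} (hF : ContDiff ℝ ∞ F) : ContDiff ℝ ∞ (ext F) := by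
  have h1 : ContDiff ℝ ∞ (fderiv ℝ F) := hF.fderiv_right (by norm_num)
  exact (hF.comp contDiff_fst).prodMk ((h1.comp contDiff_fst).clm_comp contDiff_snd)

/-- full solutions are orbits -/
theorem sol_eq {F : Q → Q} {φ : ℝ → Q → Q} {M : ℝ → Q → Q →L[ℝ] Q} (h : IsFlow F φ M)
    (y : ℝ → Q) (hy : ∀ t, HasDerivAt y (F (y t)) t) (t : ℝ) : y t = φ t (y 0) := by
  rcases le_total 0 t with ht | ht
  · exact h.uniq y (fun s _ => (hy s).hasDerivWithinAt) t ht
  · have h1 : ∀ s, HasDerivAt (fun s => y (s + t)) (F (y (s + t))) s := fun s => by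
      simpa using (hy (s + t)).comp_add_const s t
    have h2 := h.uniq (fun s => y (s + t)) (fun s _ => (h1 s).hasDerivWithinAt) (-t) (by linarith)
    simp only [neg_add_cancel, zero_add] at h2
    rw [h2, ← h.add, add_neg_cancel, h.zero]

/-- joint differentiability -/
theorem joint {F : Q → Q} {φ : ℝ → Q → Q} {M : ℝ → Q → Q →L[ℝ] Q} (hF : Continuous F)
    (h : IsFlow F φ M) (p : ℝ × Q) :
    HasFDerivAt (fun p : ℝ × Q => φ p.1 p.2)
      ((ContinuousLinearMap.toSpanSingleton ℝ (F (φ p.1 p.2))).coprod (M p.1 p.2)) p := by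
  have h1 := hasStrictFDerivAt_uncurry_coprod (𝕜 := ℝ) (u := p) (f := φ)
    (f₁ := fun t z => ContinuousLinearMap.toSpanSingleton ℝ (F (φ t z))) (f₂ := M)
    (Eventually.of_forall fun v => (h.ode v.2 v.1).hasFDerivAt)
    (Eventually.of_forall fun v => h.diff v.1 v.2)
    (by
      apply Continuous.continuousAt
      exact (ContinuousLinearMap.toSpanSingletonCLE (𝕜 := ℝ) (E := Q)).continuous.comp
        (hF.comp h.cont))
    h.Mcont.continuousAt
  exact h1.hasFDerivAt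

/-- the derivative of the flow maps the field to the field -/
theorem M_F {F : Q → Q} {φ : ℝ → Q → Q} {M : ℝ → Q → Q →L[ℝ] Q} (h : IsFlow F φ M) (t : ℝ)
    (z : Q) : M t z (F z) = F (φ t z) := by
  have h1 : HasDerivAt (fun s => φ t (φ s z)) (M t z (F z)) 0 := by
    have h2 : HasDerivAt (fun s => φ s z) (F z) 0 := by
      have := h.ode z 0
      rwa [h.zero] at this
    have h3 : HasFDerivAt (φ t) (M t z) (φ 0 z) := by rw [h.zero]; exact h.diff t z
    exact h3.comp_hasDerivAt 0 h2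
  have h4 : HasDerivAt (fun s => φ t (φ s z)) (F (φ t z)) 0 := by
    have h5 : (fun s => φ t (φ s z)) = fun s => φ (s + t) z := by
      funext s; rw [← h.add, add_comm]
    rw [h5]
    have h6 := h.ode z (0 + t)
    rw [zero_add] at h6
    have h7 := (h.ode z (0 + t)).comp_add_const 0 t
    simpa using h7
  exact h1.unique h4

/-- a solution of a time changed equation is a time changed orbit -/
theorem repar {F : Q → Q} {φ : ℝ → Q → Q} {M : ℝ → Q → Q →L[ℝ] Q} (hF : Continuous F)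
    (h : IsFlow F φ M) (r : ℝ → ℝ) (hr : Continuous r) (x : ℝ → Q)
    (hx : ∀ t, HasDerivAt x (r t • F (x t)) t) (t : ℝ) :
    x t = φ (∫ s in (0 : ℝ)..t, r s) (x 0) := by
  set τ : ℝ → ℝ := fun t => ∫ s in (0 : ℝ)..t, r s with hτ
  have h1 : ∀ t, HasDerivAt τ (r t) t := fun t => hr.integral_hasStrictDerivAt 0 t |>.hasDerivAt
  have h2 : ∀ t, HasDerivAt (fun t => φ (-τ t) (x t)) 0 t := by
    intro t
    have h3 : HasDerivAt (fun t => ((-τ t, x t) : ℝ × Q)) (-r t, r t • F (x t)) t :=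
      (h1 t).neg.prodMk (hx t)
    have h4 := (joint hF h (-τ t, x t)).comp_hasDerivAt t h3
    have h5 : ((ContinuousLinearMap.toSpanSingleton ℝ (F (φ (-τ t) (x t)))).coprod
        (M (-τ t) (x t))) (-r t, r t • F (x t)) = 0 := by
      simp [M_F h]
    rw [h5] at h4
    exact h4
  have h3 : ∀ t, φ (-τ t) (x t) = φ (-τ 0) (x 0) := fun t =>
    is_const_of_deriv_eq_zero (fun s => (h2 s).differentiableAt) (fun s => (h2 s).deriv) t 0
  have h4 : τ 0 = 0 := by simp [hτ]
  have h5 := h3 t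
  rw [h4, neg_zero, h.zero] at h5
  rw [← h5, ← h.add, add_neg_cancel, h.zero]

/-- linear growth bound, forward -/
theorem grow (A A' : ℝ → Q) (K T R : ℝ) (hA : ∀ t, HasDerivAt A (A' t) t)
    (hb : ∀ t, 0 ≤ t → t ≤ T → ‖A' t‖ ≤ K * ‖A t‖) (h0 : ‖A 0‖ ≤ R) :
    ∀ t, 0 ≤ t → t ≤ T → ‖A t‖ ≤ R * Real.exp (K * t) := by
  intro t h1 h2
  have h3 := norm_le_gronwallBound_of_norm_deriv_right_le (f := A) (f' := A') (δ := R) (K := K)
    (ε := 0) (a := 0) (b := T) (fun s _ => (hA s).continuousAt.continuousWithinAt)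
    (fun s _ => (hA s).hasDerivWithinAt) h0
    (fun s hs => by simpa using hb s hs.1 hs.2.le) t ⟨h1, h2⟩
  rwa [gronwallBound_ε0, sub_zero] at h3

variable [FiniteDimensional ℝ Q]

/-- the extended field satisfies the hypothesis of `StPatch` -/
theorem trap {F : Q → Q} {φ : ℝ → Q → Q} {M : ℝ → Q → Q →L[ℝ] Q} (hF : ContDiff ℝ ∞ F)
    (h : IsFlow F φ M) (S : Set (Q × (Q →L[ℝ] Q))) (T : ℝ) (hS : IsCompact S) :
    ∃ S' : Set (Q × (Q →L[ℝ] Q)), IsCompact S' ∧ ∀ ψ : Q × (Q →L[ℝ] Q) → ℝ,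
      ContDiff ℝ ∞ ψ → (∀ z, 0 ≤ ψ z ∧ ψ z ≤ 1) → ∀ y : ℝ → Q × (Q →L[ℝ] Q),
      (∀ t, HasDerivAt y (ψ (y t) • ext F (y t)) t) → y 0 ∈ S → ∀ t, |t| ≤ T → y t ∈ S' := by
  have : ProperSpace Q := FiniteDimensional.proper ℝ Q
  have : ProperSpace (Q →L[ℝ] Q) := FiniteDimensional.proper ℝ (Q →L[ℝ] Q)
  set S1 : Set Q := (fun p : ℝ × Q => φ p.1 p.2) '' (Icc (-T) T ×ˢ (Prod.fst '' S)) with hS1
  have hS1c : IsCompact S1 :=
    (isCompact_Icc.prod (hS.image continuous_fst)).image h.cont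
  obtain ⟨K, hK⟩ := hS1c.exists_bound_of_continuousOn
    (f := fderiv ℝ F) (hF.continuous_fderiv (by norm_num)).continuousOn
  obtain ⟨R, hR⟩ := hS.exists_bound_of_continuousOn
    (f := fun y : Q × (Q →L[ℝ] Q) => y.2) continuous_snd.continuousOn
  refine ⟨S1 ×ˢ Metric.closedBall 0 (R * Real.exp (|K| * |T|)),
    hS1c.prod (isCompact_closedBall _ _), ?_⟩
  intro ψ hψ hψ1 y hy hy0
  have hc : Continuous fun t => ψ (y t) := hψ.continuous.comp
    (continuous_iff_continuousAt.2 fun t => (hy t).continuousAt)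
  have hx : ∀ t, HasDerivAt (fun t => (y t).1) (ψ (y t) • F (y t).1) t := fun t =>
    (ContinuousLinearMap.fst ℝ Q (Q →L[ℝ] Q)).hasFDerivAt.comp_hasDerivAt t (hy t)
  have hA : ∀ t, HasDerivAt (fun t => (y t).2) (ψ (y t) • (fderiv ℝ F (y t).1).comp (y t).2) t :=
    fun t => (ContinuousLinearMap.snd ℝ Q (Q →L[ℝ] Q)).hasFDerivAt.comp_hasDerivAt t (hy t)
  have hmem : ∀ t, |t| ≤ T → (y t).1 ∈ S1 := by
    intro t ht
    have h1 := repar hF.continuous h (fun t => ψ (y t)) hc (fun t => (y t).1) hx t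
    refine ⟨(∫ s in (0 : ℝ)..t, ψ (y s), (y 0).1), ⟨?_, ⟨y 0, hy0, rfl⟩⟩, h1.symm⟩
    have h2 : ‖∫ s in (0 : ℝ)..t, ψ (y s)‖ ≤ 1 * |t - 0| :=
      intervalIntegral.norm_integral_le_of_norm_le_const fun s _ => by
        rw [Real.norm_of_nonneg (hψ1 _).1]; exact (hψ1 _).2
    rw [Real.norm_eq_abs, one_mul, sub_zero] at h2
    exact abs_le.1 (h2.trans ht)
  have hR0 : ‖(y 0).2‖ ≤ R := hR _ hy0
  have hR1 : 0 ≤ R := (norm_nonneg _).trans hR0
  have hbd : ∀ t, |t| ≤ T → ‖ψ (y t) • (fderiv ℝ F (y t).1).comp (y t).2‖ ≤ |K| * ‖(y t).2‖ := by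
    intro t ht
    rw [norm_smul, Real.norm_of_nonneg (hψ1 _).1]
    calc ψ (y t) * ‖(fderiv ℝ F (y t).1).comp (y t).2‖
        ≤ 1 * (‖fderiv ℝ F (y t).1‖ * ‖(y t).2‖) := by
          apply mul_le_mul (hψ1 _).2 (ContinuousLinearMap.opNorm_comp_le _ _) (norm_nonneg _)
            zero_le_one
      _ ≤ |K| * ‖(y t).2‖ := by
          rw [one_mul]
          exact mul_le_mul_of_nonneg_right ((hK _ (hmem t ht)).trans (le_abs_self K))
            (norm_nonneg _)
  intro t ht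
  refine ⟨hmem t ht, ?_⟩
  rw [mem_closedBall_zero_iff]
  have hT : 0 ≤ T := (abs_nonneg t).trans ht
  have hfin : ∀ s, 0 ≤ s → s ≤ T → R * Real.exp (|K| * s) ≤ R * Real.exp (|K| * |T|) := by
    intro s _ h2
    apply mul_le_mul_of_nonneg_left _ hR1
    apply Real.exp_le_exp.2
    apply mul_le_mul_of_nonneg_left _ (abs_nonneg K)
    exact h2.trans (le_abs_self T)
  rcases le_total 0 t with h0 | h0
  · rw [abs_of_nonneg h0] at ht
    refine (grow (fun t => (y t).2) _ |K| T R hA ?_ hR0 t h0 ht).trans (hfin t h0 ht)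
    intro s h1 h2
    exact hbd s (by rw [abs_of_nonneg h1]; exact h2)
  · have ht' : -t ≤ T := by rwa [abs_of_nonpos h0] at ht
    have hA' : ∀ s, HasDerivAt (fun s => (y (-s)).2)
        (-(ψ (y (-s)) • (fderiv ℝ F (y (-s)).1).comp (y (-s)).2)) s := by
      intro s
      have h9 := (hA (-s)).scomp s (hasDerivAt_neg s)
      rw [neg_one_smul] at h9
      exact h9
    have h5 := grow (fun s => (y (-s)).2) _ |K| T R hA' (by
      intro s h1 h2
      rw [norm_neg]
      exact hbd (-s) (by rw [abs_neg, abs_of_nonneg h1]; exact h2)) (by simpa using hR0) (-t)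
      (by linarith) ht'
    simp only [neg_neg] at h5
    exact h5.trans (hfin (-t) (by linarith) ht')

theorem main (h1 : StPatch) (k : ℕ) : ∀ (Q : Type) [NormedAddCommGroup Q] [NormedSpace ℝ Q]
    [FiniteDimensional ℝ Q] (F : Q → Q) (φ : ℝ → Q → Q) (M : ℝ → Q → Q →L[ℝ] Q),
    ContDiff ℝ ∞ F → IsFlow F φ M → ContDiff ℝ k (fun p : ℝ × Q => φ p.1 p.2) := by
  induction k with
  | zero =>
    intro Q _ _ _ F φ M _ h
    exact contDiff_zero.2 h.cont
  | succ k ih =>
    intro Q _ _ _ F φ M hF h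
    have h2 : ContDiff ℝ k (fun p : ℝ × Q => φ p.1 p.2) := ih Q F φ M hF h
    obtain ⟨φ', M', h3⟩ := h1 (Q × (Q →L[ℝ] Q)) (ext F) ((ext_smooth hF).of_le (by norm_num))
      (fun S T hS => trap hF h S T hS)
    have h4 := ih _ (ext F) φ' M' (ext_smooth hF) h3
    have h5 : ∀ t z, M t z = (φ' t (z, ContinuousLinearMap.id ℝ Q)).2 := by
      intro t z
      have h6 := sol_eq h3 (fun t => (φ t z, M t z)) (fun t => (h.ode z t).prodMk (h.Mode z t)) t
      simp only [h.zero, h.M0] at h6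
      rw [← h6]
    have h6 : ContDiff ℝ k (fun p : ℝ × Q => M p.1 p.2) := by
      have h7 : (fun p : ℝ × Q => M p.1 p.2) =
          fun p : ℝ × Q => (φ' p.1 (p.2, ContinuousLinearMap.id ℝ Q)).2 := by
        funext p; exact h5 p.1 p.2
      rw [h7]
      exact contDiff_snd.comp (h4.comp
        (contDiff_fst.prodMk (contDiff_snd.prodMk contDiff_const)))
    have h7 : ContDiff ℝ k (fun p : ℝ × Q =>
        (ContinuousLinearMap.toSpanSingleton ℝ (F (φ p.1 p.2))).coprod (M p.1 p.2)) := by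
      have h8 : ContDiff ℝ k (fun p : ℝ × Q =>
          ContinuousLinearMap.toSpanSingleton ℝ (F (φ p.1 p.2))) :=
        (ContinuousLinearMap.toSpanSingletonCLE (𝕜 := ℝ) (E := Q)).contDiff.comp
          ((hF.of_le (by exact_mod_cast le_top)).comp h2)
      have h9 : (fun p : ℝ × Q =>
          (ContinuousLinearMap.toSpanSingleton ℝ (F (φ p.1 p.2))).coprod (M p.1 p.2)) =
          fun p : ℝ × Q => (ContinuousLinearMap.toSpanSingleton ℝ (F (φ p.1 p.2))).comp
            (ContinuousLinearMap.fst ℝ ℝ Q) + (M p.1 p.2).comp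
            (ContinuousLinearMap.snd ℝ ℝ Q) := by
        funext p
        ext <;> simp
      rw [h9]
      exact (h8.clm_comp contDiff_const).add (h6.clm_comp contDiff_const)
    have h8 : ((k + 1 : ℕ) : WithTop ℕ∞) = (k : WithTop ℕ∞) + 1 := by push_cast; rfl
    rw [h8, contDiff_succ_iff_hasFDerivAt]
    exact ⟨_, h7, fun p => joint hF.continuous h p⟩

end ISmF

theorem pr_SmF (h1 : StPatch) : StSmF := by
  intro Q _ _ _ F φ M hF h
  rw [contDiff_infty]
  intro k
  exact ISmF.main h1 k Q F φ M hF h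

end Pool.Agent.STR
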