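import Mathlib
import Pool.Agent.Work.MP_13b5d9_gt.ST.Stmts
import Pool.Agent.Work.MP_13b5d9_gt.ST.I_SmF

set_option autoImplicit false

/-!
# MP_13b5d9_gt, block ST, item ExS: joint smoothness of the flow and of the exponential map
-/

open MeasureTheory Set Filter Topology
open scoped ContDiff ENNReal
open Pool.Agent.Work.MP_c9f990_an.Al (IsFlow)

namespace Pool.Agent.STR

open Pool.Agent.MLS

theorem pr_ExS (h0 : StSmF) (h1 : StOp) (h2 : StTr0) : StExS := by
  intro n g φ M hR hF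
  obtain ⟨-, -, -, -, -, hop, -, hHm, -⟩ := h1 n g hR
  have hX : ContDiff ℝ ∞ (XH (Hm g)) := (h2 n (Hm g) hHm).1
  have hφ : ContDiff ℝ ∞ (fun p : ℝ × W n => φ p.1 p.2) := h0 (W n) (XH (Hm g)) φ M hX hF
  refine ⟨hφ, ?_⟩
  have h3 : ContDiff ℝ ∞ (fun p : E n × E n => op g p.1 p.2) :=
    (hop.comp contDiff_fst).clm_apply contDiff_snd
  have h4 : ContDiff ℝ ∞ (fun p : E n × E n => ((1 : ℝ), (p.1, op g p.1 p.2))) :=
    contDiff_const.prodMk (contDiff_fst.prodMk h3)
  exact contDiff_fst.comp (hφ.comp h4)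

end Pool.Agent.STR
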