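import Pool.Agent.Work.MP_13b5d9_gt.ST.Stmts

set_option autoImplicit false

/-!
# MP_13b5d9_gt, block ST, item Iter: invariant geodesics
-/

open MeasureTheory Set Filter Topology
open scoped ContDiff ENNReal
open Pool.Agent.Work.MP_c9f990_an.Al (IsFlow)

namespace Pool.Agent.STR

open Pool.Agent.MLS

namespace IIter

/-- length of a nonnegative multiple -/
theorem nrm_smul {n : ℕ} (g : Form n) (x v : E n) (r : ℝ) (hr : 0 ≤ r) :
    nrm g x (r • v) = r * nrm g x v := by
  unfold nrm
  have h : g.val x (r • v) (r • v) = r ^ 2 * g.val x v v := by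
    simp only [map_smul, ContinuousLinearMap.smul_apply, smul_eq_mul]
    ring
  rw [h, Real.sqrt_mul (sq_nonneg r), Real.sqrt_sq hr]

end IIter

open IIter

theorem pr_Iter (h1 : StOp) (h2 : StEqF) (h3 : NcExp) (_h4 : StLftA) : StIter := by
  intro n G _ _ hG g hg hinv φ M hφ lg hlg z x hev
  obtain ⟨-, -, hio, hoi, -, -, -, -, -⟩ := h1 n g hg
  obtain ⟨-, -, hexp, -, hexp0⟩ := h3 n g φ M hg hφ x
  set v : E n := lg x (z • x) with hv
  set ζ : W n := (x, op g x v) with hζ
  have hfst : (φ 1 ζ).1 = z • x := by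
    have h := hlg.exp_log x (z • x)
    exact h
  have hone : φ 1 ζ = lft g z ζ := by
    refine Prod.ext ?_ ?_
    · rw [hfst]
      rfl
    · have h5 : (φ 1 ζ).2 = op g (φ 1 ζ).1 (vel g (φ 1 ζ)) := by
        unfold vel
        rw [hoi]
      have h6 : vel g (φ 1 ζ) = dac z x v := hev
      have h7 : (lft g z ζ).2 = op g (z • x) (dac z x (iop g x (op g x v))) := rfl
      rw [h5, h6, hfst, h7, hio]
  have hstep : ∀ s : ℝ, φ (s + 1) ζ = lft g z (φ s ζ) := by
    intro s
    rw [hφ.add, hone, h2 n G hG g hg hinv φ M hφ z s ζ]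
  have hs : ∀ s : ℝ, expo φ g x ((s + 1) • v) = z • expo φ g x (s • v) := by
    intro s
    rw [← hexp (s + 1) v, ← hexp s v]
    exact congrArg Prod.fst (hstep s)
  refine ⟨hs, ?_⟩
  have hk : ∀ k : ℕ, expo φ g x ((k : ℝ) • v) = z ^ k • x := by
    intro k
    induction k with
    | zero => rw [Nat.cast_zero, zero_smul, hexp0, pow_zero, one_smul]
    | succ k ih => rw [Nat.cast_succ, hs, ih, pow_succ', mul_smul]
  intro k
  rw [← hk k, hlg.dist, hlg.log_exp, nrm_smul g x v k (Nat.cast_nonneg k), hlg.dist, ← hv]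

end Pool.Agent.STR
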