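import Pool.Agent.Work.MP_13b5d9_gt.ST.Stmts

set_option autoImplicit false
set_option maxSynthPendingDepth 3

/-!
# MP_13b5d9_gt, block ST, item LgI: equivariance of the exponential map.  Author: helper73
-/

open MeasureTheory Set Filter Topology
open scoped ContDiff ENNReal
open Pool.Agent.Work.MP_c9f990_an.Al (IsFlow)

namespace Pool.Agent.STR

open Pool.Agent.MLS

theorem pr_LgI (h1 : StOp) (h2 : StEqF) : StLgI := by
  intro n G _ _ hc g hg hi φ M hφ
  obtain ⟨-, -, hio, -⟩ := h1 n g hg
  have key : ∀ (a : G) (x v : E n), expo φ g (a • x) (dac a x v) = a • expo φ g x v := by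
    intro a x v
    have h := h2 n G hc g hg hi φ M hφ a 1 (x, op g x v)
    have hl : lft g a (x, op g x v) = (a • x, op g (a • x) (dac a x v)) := by
      unfold lft
      simp only [hio]
    rw [hl] at h
    unfold expo
    rw [h]
    rfl
  refine ⟨key, ?_⟩
  intro lg hlg a x y
  have h := key a x (lg x y)
  rw [hlg.exp_log x y] at h
  rw [← h, hlg.log_exp]

end Pool.Agent.STR
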