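import Pool.Agent.Work.MP_13b5d9_gt.ST.Stmts

set_option autoImplicit false

/-!
# MP_13b5d9_gt, block ST, item Log: the logarithm
-/

open MeasureTheory Set Filter Topology
open scoped ContDiff ENNReal
open Pool.Agent.Work.MP_c9f990_an.Al (IsFlow)

namespace Pool.Agent.STR

open Pool.Agent.MLS

namespace ILog

/-- a smooth bijection with injective derivatives has a smooth inverse -/
theorem inv_smooth {F : Type} [NormedAddCommGroup F] [NormedSpace ℝ F] [FiniteDimensional ℝ F]
    (f : F → F) (hf : ContDiff ℝ ∞ f) (hb : Function.Bijective f)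
    (hi : ∀ p w, fderiv ℝ f p w = 0 → w = 0) :
    ∃ s : F → F, ContDiff ℝ ∞ s ∧ (∀ p, s (f p) = p) ∧ ∀ p, f (s p) = p := by
  have : CompleteSpace F := FiniteDimensional.complete ℝ F
  have hinj : ∀ p, Function.Injective (fderiv ℝ f p : F →ₗ[ℝ] F) := by
    intro p
    rw [injective_iff_map_eq_zero]
    intro w hw
    exact hi p w hw
  let e : F → F ≃L[ℝ] F := fun p =>
    (LinearEquiv.ofInjectiveEndo (fderiv ℝ f p : F →ₗ[ℝ] F) (hinj p)).toContinuousLinearEquiv
  have he : ∀ p, ((e p : F ≃L[ℝ] F) : F →L[ℝ] F) = fderiv ℝ f p := by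
    intro p
    ext w
    simp [e]
  have hs : ∀ p, HasStrictFDerivAt f ((e p : F ≃L[ℝ] F) : F →L[ℝ] F) p := by
    intro p
    rw [he]
    exact hf.contDiffAt.hasStrictFDerivAt (by simp)
  have hopen : IsOpenMap f := isOpenMap_of_hasStrictFDerivAt_equiv hs
  let h : F ≃ₜ F := (Equiv.ofBijective f hb).toHomeomorphOfContinuousOpen hf.continuous hopen
  have hh : ∀ p, h p = f p := fun p => rfl
  refine ⟨h.symm, ?_, ?_, ?_⟩
  · exact h.contDiff_symm (f₀' := e) (fun a => (hs a).hasFDerivAt) hf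
  · intro p
    rw [← hh]
    exact h.symm_apply_apply p
  · intro p
    rw [← hh]
    exact h.apply_symm_apply p

end ILog

theorem pr_Log (h1 : StExS) (h2 : NcInj) (h3 : NcDist) (_h4 : NcExp) : StLog := by
  intro n g φ M hR hφ hN
  have hG := (h1 n g φ M hR hφ).2
  have hinj := h2 n g φ M hR hφ hN
  have hD := fun p => h3 n g φ M hR hφ p (hinj p)
  -- the map
  let F : W n → W n := fun p => (p.1, expo φ g p.1 p.2)
  have hF : ContDiff ℝ ∞ F := contDiff_fst.prodMk hG
  have hFb : Function.Bijective F := by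
    constructor
    · rintro ⟨x, v⟩ ⟨y, w⟩ h
      have hx : x = y := congrArg Prod.fst h
      subst hx
      have hv : expo φ g x v = expo φ g x w := congrArg Prod.snd h
      rw [(hD x).1.1 hv]
    · rintro ⟨x, y⟩
      obtain ⟨v, hv⟩ := (hD x).1.2 y
      exact ⟨(x, v), by simp [F, hv]⟩
  have hFd : ∀ (p w : W n), fderiv ℝ F p w = 0 → w = 0 := by
    rintro ⟨x, v⟩ ⟨u, w⟩ h
    have hGd : Differentiable ℝ (fun p : E n × E n => expo φ g p.1 p.2) :=
      hG.differentiable (by simp)
    have hd : fderiv ℝ F (x, v) = (ContinuousLinearMap.fst ℝ (E n) (E n)).prod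
        (fderiv ℝ (fun p : E n × E n => expo φ g p.1 p.2) (x, v)) :=
      (hasFDerivAt_fst.prodMk (hGd (x, v)).hasFDerivAt).fderiv
    rw [hd] at h
    have hu : u = 0 := congrArg Prod.fst h
    have hw : fderiv ℝ (fun p : E n × E n => expo φ g p.1 p.2) (x, v) (u, w) = 0 :=
      congrArg Prod.snd h
    have hc : HasFDerivAt (expo φ g x)
        ((fderiv ℝ (fun p : E n × E n => expo φ g p.1 p.2) (x, v)).comp
          (ContinuousLinearMap.inr ℝ (E n) (E n))) v :=
      (hGd (x, v)).hasFDerivAt.comp v (hasFDerivAt_prodMk_right x v)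
    have hw2 : fderiv ℝ (expo φ g x) v w = 0 := by
      rw [hc.fderiv]
      rw [hu] at hw
      simpa using hw
    rw [hu, hinj x v w hw2]
    rfl
  obtain ⟨s, hs, hsF, hFs⟩ := ILog.inv_smooth F hF hFb hFd
  have hs1 : ∀ x y, (s (x, y)).1 = x := fun x y => congrArg Prod.fst (hFs (x, y))
  have hs2 : ∀ x y, expo φ g x (s (x, y)).2 = y := by
    intro x y
    have := congrArg Prod.snd (hFs (x, y))
    simp only [F] at this
    rwa [hs1] at this
  refine ⟨fun x y => (s (x, y)).2, ?_, ?_, ?_, ?_⟩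
  · exact contDiff_snd.comp hs
  · exact hs2
  · intro x v
    have := hsF (x, v)
    simp only [F] at this
    rw [this]
  · intro x y
    have := (hD x).2 (s (x, y)).2
    rwa [hs2] at this

end Pool.Agent.STR
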