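import Pool.Agent.Work.MP_13b5d9_gt.ST.Stmts

set_option autoImplicit false

/-!
# Item The: the form `g (V, .)` is invariant under the flow of `V`
-/

open MeasureTheory Set Filter Topology
open scoped ContDiff ENNReal
open Pool.Agent.Work.MP_c9f990_an.Al (IsFlow)

namespace Pool.Agent.STR

open Pool.Agent.MLS

theorem pr_The (h1 : StOp) (h2 : StAct) : StThe := by
  intro n G _ _ g φ M z l V ψ hR hF hV t x w
  obtain ⟨-, hin, hio, -, -, hop, -, hHs, hH⟩ := h1 n g hR
  set ζ : E n → W n := fun y => (y, op g y (V y)) with hζ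
  have hζs : ContDiff ℝ ∞ ζ := contDiff_id.prodMk (hop.clm_apply hV.smoothV)
  have hζd : HasFDerivAt ζ (fderiv ℝ ζ x) x :=
    (hζs.differentiable (by simp) x).hasFDerivAt
  have h1f : (fderiv ℝ ζ x w).1 = w := by
    have h3 : HasFDerivAt (fun y : E n => (ζ y).1)
        ((ContinuousLinearMap.fst ℝ (E n) (E n)).comp (fderiv ℝ ζ x)) x :=
      (ContinuousLinearMap.fst ℝ (E n) (E n)).hasFDerivAt.comp x hζd
    have h4 : HasFDerivAt (fun y : E n => (ζ y).1) (ContinuousLinearMap.id ℝ (E n)) x :=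
      hasFDerivAt_id x
    have h5 := congrArg (fun L : E n →L[ℝ] E n => L w) (h3.unique h4)
    exact h5
  have hHζ : ∀ y, Hm g (ζ y) = 1 / 2 := by
    intro y
    have h3 : vel g (ζ y) = V y := hio y (V y)
    have h4 : g.val (ζ y).1 (V y) (V y) = 1 := hV.unit y
    rw [hH, h3, h4]
    norm_num
  have hHd : fderiv ℝ (Hm g) (ζ x) (fderiv ℝ ζ x w) = 0 := by
    have h3 : HasFDerivAt (fun y => Hm g (ζ y)) ((fderiv ℝ (Hm g) (ζ x)).comp (fderiv ℝ ζ x)) x :=
      ((hHs.differentiable (by simp) (ζ x)).hasFDerivAt).comp x hζd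
    have h4 : HasFDerivAt (fun y => Hm g (ζ y)) (0 : E n →L[ℝ] ℝ) x := by
      have h5 : (fun y => Hm g (ζ y)) = fun _ => (1 / 2 : ℝ) := funext hHζ
      rw [h5]
      exact hasFDerivAt_const _ _
    exact congrArg (fun L : E n →L[ℝ] ℝ => L w) (h3.unique h4)
  have hψ : fderiv ℝ (ψ t) x w = (M t (ζ x) (fderiv ℝ ζ x w)).1 := by
    have h3 : HasFDerivAt (fun y : E n => φ t (ζ y)) ((M t (ζ x)).comp (fderiv ℝ ζ x)) x :=
      (hF.diff t (ζ x)).comp x hζd
    have h4 : HasFDerivAt (fun y : E n => (φ t (ζ y)).1)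
        ((ContinuousLinearMap.fst ℝ (E n) (E n)).comp ((M t (ζ x)).comp (fderiv ℝ ζ x))) x :=
      (ContinuousLinearMap.fst ℝ (E n) (E n)).hasFDerivAt.comp x h3
    have h5 : (fun y : E n => (φ t (ζ y)).1) = ψ t := by
      funext y
      have h6 := hV.phase t y
      exact congrArg Prod.fst h6
    rw [h5] at h4
    rw [h4.fderiv]
    rfl
  have hact := h2 n g φ M hR hF (ζ x) (fderiv ℝ ζ x w) t
  rw [hHd, mul_zero, h1f, ← hψ] at hact
  have h6 : (φ t (ζ x)).2 = op g (ψ t x) (V (ψ t x)) := congrArg Prod.snd (hV.phase t x)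
  have h7 : (ζ x).2 = op g x (V x) := rfl
  rw [h6, h7, hin, hin] at hact
  linarith

end Pool.Agent.STR
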