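import Mathlib
import Pool.Agent.Work.MP_13b5d9_gt.ST.Stmts

set_option autoImplicit false

/-!
# MP_13b5d9_gt, block ST: item Tri (triangles)
-/

open MeasureTheory Set Filter Topology
open scoped ContDiff ENNReal

namespace Pool.Agent.STR

open Pool.Agent.MLS

namespace ITri

theorem seg_symm {n : ℕ} (α : E n → E n →L[ℝ] ℝ) (x y : E n) : seg α y x = -seg α x y := by
  unfold seg
  have h1 := intervalIntegral.integral_comp_sub_left (a := (0 : ℝ)) (b := 1)
    (fun τ => α (y + τ • (x - y)) (x - y)) 1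
  rw [sub_self, sub_zero] at h1
  rw [← h1, ← intervalIntegral.integral_neg]
  congr 1
  funext τ
  have h2 : y + (1 - τ) • (x - y) = x + τ • (y - x) := by
    rw [sub_smul, one_smul, smul_sub, smul_sub]
    abel
  rw [h2, ← neg_sub y x, map_neg]

theorem sqrt_le {κ K : ℝ} (hκ : 0 < κ) :
    Real.sqrt (κ ^ 2 + K ^ 2) ≤ κ + K ^ 2 / (2 * κ) := by
  apply Real.sqrt_le_iff.mpr
  constructor
  · positivity
  · have h1 : (κ + K ^ 2 / (2 * κ)) ^ 2 = κ ^ 2 + K ^ 2 + (K ^ 2 / (2 * κ)) ^ 2 := by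
      field_simp
      ring
    rw [h1]
    nlinarith [sq_nonneg (K ^ 2 / (2 * κ))]

theorem tri_nonneg (h1 : StGd) {n : ℕ} {g : Form n} {V : E n → E n} {ψ : ℝ → E n → E n}
    (hz : ∀ x, ψ 0 x = x) (hd : ∀ (t : ℝ) (x : E n), gd g x (ψ t x) = |t|)
    (hc : ∀ x y : E n, ∃ K : ℝ, 0 ≤ K ∧ ∀ s κ : ℝ,
      gd g (ψ s x) (ψ (s + κ - seg (fun p => g.val p (V p)) x y) y) ≤ Real.sqrt (κ ^ 2 + K ^ 2))
    (x y p : E n) :
    0 ≤ seg (fun p => g.val p (V p)) x y + seg (fun p => g.val p (V p)) y p +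
      seg (fun p => g.val p (V p)) p x := by
  obtain ⟨-, hpm, -, -⟩ := h1 n g
  obtain ⟨K1, -, hK1⟩ := hc x y
  obtain ⟨K2, -, hK2⟩ := hc y p
  obtain ⟨K3, -, hK3⟩ := hc p x
  set a := seg (fun p => g.val p (V p)) x y with ha
  set b := seg (fun p => g.val p (V p)) y p with hb
  set c := seg (fun p => g.val p (V p)) p x with hcc
  by_contra hneg
  push Not at hneg
  set C := K1 ^ 2 + K2 ^ 2 + K3 ^ 2 with hC
  have hC0 : 0 ≤ C := by positivity
  have hden : 0 < -(2 * (a + b + c)) := by linarith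
  set κ := (C + 1) / -(2 * (a + b + c)) with hκ
  have hκ0 : 0 < κ := by positivity
  have hκ1 : -(2 * (a + b + c)) * κ = C + 1 := by
    rw [hκ]
    exact mul_div_cancel₀ _ hden.ne'
  have e1 := hK1 0 κ
  rw [hz] at e1
  have e2 := hK2 (0 + κ - a) κ
  have e3 := hK3 (0 + κ - a + κ - b) κ
  have hend : 0 + κ - a + κ - b + κ - c = 3 * κ - (a + b + c) := by ring
  rw [hend] at e3
  have hline := hd (3 * κ - (a + b + c)) x
  rw [abs_of_pos (by linarith)] at hline
  have tr1 := hpm.tri x (ψ (0 + κ - a) y) (ψ (0 + κ - a + κ - b) p)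
  have tr2 := hpm.tri x (ψ (0 + κ - a + κ - b) p) (ψ (3 * κ - (a + b + c)) x)
  have s1 := sqrt_le (K := K1) hκ0
  have s2 := sqrt_le (K := K2) hκ0
  have s3 := sqrt_le (K := K3) hκ0
  have hsum : K1 ^ 2 / (2 * κ) + K2 ^ 2 / (2 * κ) + K3 ^ 2 / (2 * κ) = C / (2 * κ) := by
    rw [hC]
    ring
  have hq : -(a + b + c) ≤ C / (2 * κ) := by linarith
  rw [le_div_iff₀ (by positivity)] at hq
  nlinarith

end ITri

open ITri in
/-- Triangles -/
theorem pr_Tri (h1 : StGd) : StTri := by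
  intro n G _ _ g φ z l V ψ hF hc x y p
  have a1 := tri_nonneg h1 hF.zero hF.dist hc x y p
  have a2 := tri_nonneg h1 hF.zero hF.dist hc x p y
  rw [seg_symm (fun p => g.val p (V p)) p x, seg_symm (fun p => g.val p (V p)) y p,
    seg_symm (fun p => g.val p (V p)) x y] at a2
  linarith

end Pool.Agent.STR
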