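import Mathlib
import Pool.Agent.Work.MP_13b5d9_gt.ST.Stmts

set_option autoImplicit false

/-!
# MP_13b5d9_gt, block ST, item Var: first variation of the squared distance
-/

open MeasureTheory Set Filter Topology
open scoped ContDiff ENNReal
open Pool.Agent.Work.MP_c9f990_an.Al (IsFlow)

namespace Pool.Agent.STR

open Pool.Agent.MLS

theorem pr_Var (h1 : StOp) (h2 : StAct) : StVar := by
  intro n g φ M lg hg hφ hl Y hY x w
  obtain ⟨-, hop, hio, hoi, -, hopS, -, hHs, hH⟩ := h1 n g hg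
  have hlS : ContDiff ℝ ∞ (fun y => lg y (Y y)) :=
    hl.smooth.comp (contDiff_id.prodMk hY)
  have hpS : ContDiff ℝ ∞ (fun y => op g y (lg y (Y y))) := hopS.clm_apply hlS
  -- derivative of the lift
  have hζ : HasFDerivAt (fun y : E n => ((y, op g y (lg y (Y y))) : W n))
      ((ContinuousLinearMap.id ℝ (E n)).prod (fderiv ℝ (fun y => op g y (lg y (Y y))) x)) x :=
    (hasFDerivAt_id x).prodMk ((hpS.differentiable (by simp)) x).hasFDerivAt
  have hfun : (fun y => 1 / 2 * g.val y (lg y (Y y)) (lg y (Y y))) =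
      fun y => Hm g ((y, op g y (lg y (Y y))) : W n) := by
    funext y
    rw [hH]
    simp only [vel, hio]
  have hHd : HasFDerivAt (Hm g) (fderiv ℝ (Hm g) (x, op g x (lg x (Y x))))
      (x, op g x (lg x (Y x))) := ((hHs.differentiable (by simp)) _).hasFDerivAt
  have hcomp := hHd.comp x hζ
  have hL : fderiv ℝ (fun y => 1 / 2 * g.val y (lg y (Y y)) (lg y (Y y))) x w =
      fderiv ℝ (Hm g) (x, op g x (lg x (Y x)))
        (w, fderiv ℝ (fun y => op g y (lg y (Y y))) x w) := by
    rw [hfun]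
    have := hcomp.fderiv
    have h3 : (fun y => Hm g ((y, op g y (lg y (Y y))) : W n)) =
      (Hm g) ∘ (fun y : E n => ((y, op g y (lg y (Y y))) : W n)) := rfl
    rw [h3, this]
    rfl
  -- the time one map
  have hφd := (hφ.diff 1 (x, op g x (lg x (Y x)))).comp x hζ
  have hfst : HasFDerivAt (fun y : E n => (φ 1 ((y, op g y (lg y (Y y))) : W n)).1)
      ((ContinuousLinearMap.fst ℝ (E n) (E n)).comp ((M 1 (x, op g x (lg x (Y x)))).comp
        ((ContinuousLinearMap.id ℝ (E n)).prod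
          (fderiv ℝ (fun y => op g y (lg y (Y y))) x)))) x :=
    (ContinuousLinearMap.fst ℝ (E n) (E n)).hasFDerivAt.comp x hφd
  have hYeq : (fun y : E n => (φ 1 ((y, op g y (lg y (Y y))) : W n)).1) = Y := by
    funext y
    exact hl.exp_log y (Y y)
  rw [hYeq] at hfst
  have hM1 : (M 1 (x, op g x (lg x (Y x)))
      (w, fderiv ℝ (fun y => op g y (lg y (Y y))) x w)).1 = fderiv ℝ Y x w := by
    rw [hfst.fderiv]
    rfl
  have hact := h2 n g φ M hg hφ (x, op g x (lg x (Y x)))
    (w, fderiv ℝ (fun y => op g y (lg y (Y y))) x w) 1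
  rw [hL, ← one_mul (fderiv ℝ (Hm g) _ _), ← hact, hM1]
  have hP1 : (φ 1 ((x, op g x (lg x (Y x))) : W n)).1 = Y x := hl.exp_log x (Y x)
  have hP2 : inner ℝ (φ 1 ((x, op g x (lg x (Y x))) : W n)).2 (fderiv ℝ Y x w) =
      g.val (Y x) (ev φ g x (lg x (Y x))) (fderiv ℝ Y x w) := by
    have key : ∀ (P : W n) (b : E n), inner ℝ P.2 b = g.val P.1 (iop g P.1 P.2) b := by
      intro P b
      rw [← hop, hoi]
    have e : g.val (Y x) = g.val (φ 1 ((x, op g x (lg x (Y x))) : W n)).1 := by rw [hP1]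
    rw [e]
    exact key _ _
  rw [hP2]
  simp only [hop]

end Pool.Agent.STR
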