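import Pool.Agent.Work.MP_25cd3b_gt.NG.All
import Pool.Agent.Work.MP_13b5d9_gt.ST.I_Act
import Pool.Agent.Work.MP_13b5d9_gt.ST.I_Ax
import Pool.Agent.Work.MP_13b5d9_gt.ST.I_AxF
import Pool.Agent.Work.MP_13b5d9_gt.ST.I_Bd
import Pool.Agent.Work.MP_13b5d9_gt.ST.I_Climb
import Pool.Agent.Work.MP_13b5d9_gt.ST.I_Crit
import Pool.Agent.Work.MP_13b5d9_gt.ST.I_Cst
import Pool.Agent.Work.MP_13b5d9_gt.ST.I_ExS
import Pool.Agent.Work.MP_13b5d9_gt.ST.I_Fld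
import Pool.Agent.Work.MP_13b5d9_gt.ST.I_Iter
import Pool.Agent.Work.MP_13b5d9_gt.ST.I_LgI
import Pool.Agent.Work.MP_13b5d9_gt.ST.I_Log
import Pool.Agent.Work.MP_13b5d9_gt.ST.I_PotG
import Pool.Agent.Work.MP_13b5d9_gt.ST.I_SmF
import Pool.Agent.Work.MP_13b5d9_gt.ST.I_The
import Pool.Agent.Work.MP_13b5d9_gt.ST.I_Tri
import Pool.Agent.Work.MP_13b5d9_gt.ST.I_Var

set_option autoImplicit false

/-!
# MP_13b5d9_gt: block ST assembled
-/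

namespace Pool.Agent.STR

open Pool.Agent.MLS

theorem p_Act : StAct := pr_Act pr_Op p_Hd pr_Tr0 p_Geo1
theorem p_SmF : StSmF := pr_SmF p_Patch
theorem p_ExS : StExS := pr_ExS p_SmF pr_Op pr_Tr0
theorem p_Log : StLog := pr_Log p_ExS p_NcInj p_NcDist p_NcExp
theorem p_Var : StVar := pr_Var pr_Op p_Act
theorem p_Crit : StCrit := pr_Crit p_Var
theorem p_Iter : StIter := pr_Iter pr_Op p_EqF p_NcExp p_LftA
theorem p_Cst : StCst := pr_Cst pr_Gd p_CtsD pr_InvD p_Crit p_Iter p_NcExp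
theorem p_LgI : StLgI := pr_LgI pr_Op p_EqF
theorem p_Fld : StFld := pr_Fld pr_Op p_ExS p_NcExp p_NcGx p_Geo1 p_LgI p_Iter
theorem p_The : StThe := pr_The pr_Op p_Act
theorem p_Bd : StBd := pr_Bd pr_Bnd
theorem p_Climb : StClimb := pr_Climb pr_Gd
theorem p_Tri : StTri := pr_Tri pr_Gd
theorem p_Ax : StAx := pr_Ax p_Flow p_Log p_Cst p_Fld p_The p_Bd p_Climb p_Tri pr_PotG pr_AxF

end Pool.Agent.STR
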