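import Mathlib
import Pool.Agent.Work.MP_13b5d9_gt.ST.Stmts

set_option autoImplicit false

/-!
# MP_13b5d9_gt, block ST, item Fld: the canonical field of a central element
-/

open MeasureTheory Set Filter Topology
open scoped ContDiff ENNReal
open Pool.Agent.Work.MP_c9f990_an.Al (IsFlow)

namespace Pool.Agent.STR

open Pool.Agent.MLS

namespace IFld

/-- the field -/
noncomputable def VV {n : ℕ} {G : Type} [Group G] [MulAction G (E n)] (lg : E n → E n → E n)
    (z : G) (l : ℝ) (x : E n) : E n := l⁻¹ • lg x (z • x)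

/-- its flow -/
noncomputable def PS {n : ℕ} {G : Type} [Group G] [MulAction G (E n)] (g : Form n)
    (φ : ℝ → W n → W n) (lg : E n → E n → E n) (z : G) (l : ℝ) (t : ℝ) (x : E n) : E n :=
  expo φ g x (t • VV lg z l x)

theorem nrm_sq {n : ℕ} (g : Form n) (x v : E n) : nrm g x v ^ 2 = g.val x v v :=
  Real.sq_sqrt (g.nonneg x v)

end IFld

open IFld

theorem pr_Fld (h1 : StOp) (h2 : StExS) (h3 : NcExp) (h4 : NcGx) (h5 : StGeo1) (h6 : StLgI)
    (h7 : StIter) : StFld := by
  intro n G _ _ hG g hg hI φ M hφ lg hlg z hz l hl hgd hev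
  have hne : l ≠ 0 := hl.ne'
  obtain ⟨hexI, hlgI⟩ := h6 n G hG g hg hI φ M hφ
  have hlgI := hlgI lg hlg
  obtain ⟨-, -, -, hopiop, -⟩ := h1 n g hg
  have hexp := fun p => h3 n g φ M hg hφ p
  have hlV : ∀ x : E n, l • VV lg z l x = lg x (z • x) := fun x => by
    rw [VV, smul_smul, mul_inv_cancel₀ hne, one_smul]
  have hsm : ContDiff ℝ ∞ (VV (G := G) lg z l) := by
    have e1 : ContDiff ℝ ∞ (fun x : E n => lg x (z • x)) :=
      hlg.smooth.comp (contDiff_id.prodMk (hG.smooth z))
    exact e1.const_smul l⁻¹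
  have hunit : ∀ x, g.val x (VV lg z l x) (VV lg z l x) = 1 := by
    intro x
    have e1 : nrm g x (lg x (z • x)) = l := by rw [← hlg.dist, hgd]
    have e2 := nrm_sq g x (lg x (z • x))
    rw [e1] at e2
    simp only [VV, map_smul, ContinuousLinearMap.smul_apply, smul_eq_mul, ← e2]
    field_simp
  have hinv : ∀ (a : G) (x : E n), VV lg z l (a • x) = dac a x (VV lg z l x) := by
    intro a x
    have e1 : z • a • x = a • z • x := by rw [smul_smul, smul_smul, hz a]
    rw [VV, VV, e1, hlgI, map_smul]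
  -- the orbits
  have hfst : ∀ (t : ℝ) (x : E n),
      (φ t (x, op g x (VV lg z l x))).1 = PS g φ lg z l t x := fun t x => (hexp x).2.2.1 t _
  have hgeo : ∀ x : E n, IsGeo g (fun t => PS g φ lg z l t x) ∧
      ∀ t, deriv (fun s => PS g φ lg z l s x) t = vel g (φ t (x, op g x (VV lg z l x))) := by
    intro x
    have e1 := h5 n g hg (fun s => φ s (x, op g x (VV lg z l x)))
      (fun t => hφ.ode (x, op g x (VV lg z l x)) t)
    have e2 : (fun t => (φ t (x, op g x (VV lg z l x))).1) = fun t => PS g φ lg z l t x := by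
      funext t; exact hfst t x
    rw [e2] at e1
    exact ⟨e1.1, e1.2.1⟩
  have hper : ∀ (t : ℝ) (x : E n), PS g φ lg z l (t + l) x = z • PS g φ lg z l t x := by
    intro t x
    have e1 := (h7 n G hG g hg hI φ M hφ lg hlg z x (hev x)).1 (t / l)
    have e2 : (t / l + 1) • lg x (z • x) = (t + l) • VV lg z l x := by
      rw [← hlV, smul_smul]; congr 1; field_simp
    have e3 : (t / l) • lg x (z • x) = t • VV lg z l x := by
      rw [← hlV, smul_smul]; congr 1; field_simp
    rw [e2, e3] at e1
    exact e1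
  have hVd : ∀ (t : ℝ) (x : E n),
      VV lg z l (PS g φ lg z l t x) = deriv (fun s => PS g φ lg z l s x) t := by
    intro t x
    have e1 := (h4 n g φ M hg hφ _ (hgeo x).1 t (t + l)).2
    simp only [add_sub_cancel_left] at e1
    rw [hper] at e1
    have e2 : lg (PS g φ lg z l t x) (z • PS g φ lg z l t x) =
        l • deriv (fun s => PS g φ lg z l s x) t := by
      rw [e1, hlg.log_exp]
    rw [VV, e2, smul_smul, inv_mul_cancel₀ hne, one_smul]
  have hphase : ∀ (t : ℝ) (x : E n), φ t (x, op g x (VV lg z l x)) =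
      (PS g φ lg z l t x, op g (PS g φ lg z l t x) (VV lg z l (PS g φ lg z l t x))) := by
    intro t x
    refine Prod.ext (hfst t x) ?_
    show (φ t (x, op g x (VV lg z l x))).2 = _
    rw [hVd, (hgeo x).2, vel, ← hfst, hopiop]
  refine ⟨VV lg z l, PS g φ lg z l, ?_⟩
  refine
    { pos := hl
      smoothV := hsm
      smoothF := ?_
      unit := hunit
      inv := hinv
      zero := ?_
      ode := ?_
      add := ?_
      geo := fun x => (hgeo x).1
      period := ?_
      comm := ?_
      phase := hphase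
      dist := ?_ }
  · have e1 := (h2 n g φ M hg hφ).2
    have e2 : ContDiff ℝ ∞ (fun p : ℝ × E n => (p.2, p.1 • VV lg z l p.2)) :=
      contDiff_snd.prodMk (contDiff_fst.smul (hsm.comp contDiff_snd))
    exact e1.comp e2
  · intro x
    rw [PS, zero_smul]
    exact (hexp x).2.2.2.2
  · intro x t
    rw [hVd]
    have e1 : Differentiable ℝ (fun s => PS g φ lg z l s x) :=
      (hgeo x).1.smooth.differentiable (by norm_num)
    exact (e1 t).hasDerivAt
  · intro s t x
    rw [← hfst (s + t) x, hφ.add, hphase t x, hfst s]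
  · intro x
    rw [PS, hlV, hlg.exp_log]
  · intro a t x
    rw [PS, hinv, ← map_smul, hexI]
    rfl
  · intro t x
    rw [hlg.dist, PS, hlg.log_exp, nrm]
    simp only [map_smul, ContinuousLinearMap.smul_apply, smul_eq_mul, hunit, mul_one]
    rw [← sq, Real.sqrt_sq_eq_abs]

end Pool.Agent.STR
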